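import Pool.Agent.TRB.MDEG

/-!
# TRD: sparse graphs without vertices of large degree (helper94)
-/

set_option autoImplicit false

namespace Pool.Agent.TRD

open Finset Pool.Agent.Lib_helper61.SwitchBasic Pool.Agent.TRC
open Pool.Agent.TRB.DEG

section

variable {α : Type} [Fintype α] [DecidableEq α]

/-- every edge between `S` and its complement counts twice in the sum of the degrees -/
theorem cr_all (C : SimpleGraph α) [DecidableRel C.Adj] (S : Finset α) :
    2 * cr C S ≤ ∑ v, (C.degree v : ℤ) := by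
  have h1 : ∑ v, (C.degree v : ℤ) = ∑ u, ∑ v, ad C u v :=
    sum_congr rfl fun u _ => deg_eq C u
  rw [h1, TRB.DEG.split (ad C) S]
  have h2 : (∑ u ∈ Sᶜ, ∑ v ∈ S, ad C u v) = cr C S := by
    rw [← cr_compl C S]
    unfold cr
    rw [compl_compl]
  have h3 : (∑ u ∈ S, ∑ v ∈ Sᶜ, ad C u v) = cr C S := rfl
  rw [h2, h3]
  have h4 : 0 ≤ ∑ u ∈ S, ∑ v ∈ S, ad C u v :=
    sum_nonneg fun u _ => sum_nonneg fun v _ => ad_nonneg C u v
  have h5 : 0 ≤ ∑ u ∈ Sᶜ, ∑ v ∈ Sᶜ, ad C u v :=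
    sum_nonneg fun u _ => sum_nonneg fun v _ => ad_nonneg C u v
  linarith

theorem empty_of2 (C : SimpleGraph α) [DecidableRel C.Adj]
    (hd : ∀ v, 2 * Fintype.card α * C.degree v + 2 * ∑ u, C.degree u < Fintype.card α ^ 2)
    (S : Finset α) (hS : 2 * S.card ≤ Fintype.card α)
    (hk : (S.card : ℤ) * ((Fintype.card α : ℤ) - S.card) = 2 * cr C S) : S = ∅ := by
  by_contra hne
  have hne' : S.Nonempty := Finset.nonempty_iff_ne_empty.2 hne
  have h1 := cr_deg C S
  have h0 := cr_all C S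
  obtain ⟨D, hD⟩ : ∃ D : ℤ, D = ∑ v, (C.degree v : ℤ) := ⟨_, rfl⟩
  rw [← hD] at h0
  obtain ⟨p, hp⟩ : ∃ p : ℤ, p = (Fintype.card α : ℤ) := ⟨_, rfl⟩
  obtain ⟨k, hkk⟩ : ∃ k : ℤ, k = (S.card : ℤ) := ⟨_, rfl⟩
  rw [← hp, ← hkk] at hk
  have h2 : ∑ v ∈ S, (2 * p * (C.degree v : ℤ) + 2 * D) < ∑ _v ∈ S, p ^ 2 := by
    refine Finset.sum_lt_sum_of_nonempty hne' fun v _ => ?_
    have := hd v
    rw [hD, hp]
    exact_mod_cast this
  rw [Finset.sum_add_distrib, Finset.sum_const, Finset.sum_const, nsmul_eq_mul, nsmul_eq_mul,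
    ← Finset.mul_sum, ← hkk] at h2
  have h3 : (2 : ℤ) * k ≤ p := by
    rw [hkk, hp]
    exact_mod_cast hS
  have h4 : (0 : ℤ) < k := by
    rw [hkk]
    exact_mod_cast card_pos.2 hne'
  have hp0 : 0 ≤ p := by linarith
  -- `k p ≤ 2 D`
  have h5 : k * p ≤ 2 * D := by nlinarith
  have h6 : 2 * p * cr C S ≤ 2 * p * ∑ v ∈ S, (C.degree v : ℤ) :=
    mul_le_mul_of_nonneg_left h1 (by linarith)
  have h7 : p * (k * (p - k)) = 2 * p * cr C S := by
    rw [hk]
    ring
  have h8 : k * (k * p) ≤ k * (2 * D) := mul_le_mul_of_nonneg_left h5 h4.le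
  nlinarith

theorem deg_aut2 (C : SimpleGraph α) [DecidableRel C.Adj]
    (hd : ∀ v, 2 * Fintype.card α * C.degree v + 2 * ∑ u, C.degree u < Fintype.card α ^ 2) :
    ∀ σ, IsClassAut C σ → IsAut C σ := by
  intro σ hσ
  obtain ⟨S, hS⟩ := hσ
  have hk := key C S σ hS
  have hcases : S = ∅ ∨ Sᶜ = ∅ := by
    rcases le_total (2 * S.card) (Fintype.card α) with h | h
    · exact Or.inl (empty_of2 C hd S h hk)
    · right
      have hc := Finset.card_add_card_compl S
      refine empty_of2 C hd Sᶜ (by omega) ?_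
      rw [cr_compl, ← hk]
      have h6 : (S.card : ℤ) + Sᶜ.card = Fintype.card α := by exact_mod_cast hc
      have h7 : (Sᶜ.card : ℤ) = (Fintype.card α : ℤ) - S.card := by linarith
      rw [h7]
      ring
  have hsw : ∀ u v, (sw C S).Adj u v ↔ C.Adj u v := by
    intro u v
    rw [sw_adj]
    have hiff : (u ∈ S ↔ v ∈ S) := by
      rcases hcases with h | h
      · rw [h]
        simp
      · rw [Finset.compl_eq_empty_iff] at h
        rw [h]
        simp
    constructor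
    · intro h
      exact h.2.2 hiff
    · intro h
      exact ⟨h.ne, ⟨fun _ => hiff, fun _ => h⟩⟩
  intro u v
  rw [← hsw, hS]

/-- Degrees less than `p / 2 - 2 m / p`, `m` the number of edges. -/
theorem deg_aut3 (C : SimpleGraph α)
    (hd : ∀ v, 2 * Fintype.card α * (C.neighborSet v).ncard + 4 * C.edgeSet.ncard <
      Fintype.card α ^ 2) : ∀ σ, IsClassAut C σ → IsAut C σ := by
  classical
  refine deg_aut2 C fun v => ?_
  have h := hd v
  rw [Set.ncard_eq_toFinset_card', Set.toFinset_card,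
    SimpleGraph.card_neighborSet_eq_degree] at h
  have h2 := C.sum_degrees_eq_twice_card_edges
  have h3 : C.edgeSet.ncard = C.edgeFinset.card := by
    rw [← SimpleGraph.coe_edgeFinset, Set.ncard_coe_finset]
  rw [h3] at h
  rw [h2]
  omega

end

end Pool.Agent.TRD
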