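import Pool.Agent.TRD.St
import Pool.Agent.TRB.MCE3

set_option autoImplicit false

namespace Pool.Agent.TRD

open Finset Pool.Agent.Lib_helper61.SwitchBasic Pool.Agent.TRC Pool.Agent.TRB

namespace CEO

variable {α : Type} [Fintype α] {C : SimpleGraph α}

theorem mem_cpt {c v : α} : v ∈ cpt C c ↔ C.Reachable c v := by
  simp [cpt]

theorem cpt_eq {o c : α} (h : c ∈ cpt C o) : cpt C c = cpt C o := by
  have h' := mem_cpt.1 h
  ext v
  rw [mem_cpt, mem_cpt]
  exact ⟨fun g => h'.trans g, fun g => h'.symm.trans g⟩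

theorem mem_blk' {c x y : α} : y ∈ blk C c x ↔ (del C c).Reachable x y := by
  simp [blk]

theorem mem_Td {c v : α} : v ∈ Td C c ↔ v ∈ cpt C c ∧
    (v = c ∨ 2 * (blk C c v).card < (cpt C c).card) := by
  simp [Td]

theorem mem_Kd {b : α} : b ∈ Kd C ↔ Fintype.card α ≤ 2 * (cpt C b).card ∧ Cen C b := by
  simp [Kd]

theorem cpt_perm {s : Equiv.Perm α} (hs : IsAut C s) (c v : α) :
    s v ∈ cpt C (s c) ↔ v ∈ cpt C c := by
  rw [mem_cpt, mem_cpt]
  exact (autIso hs).reachable_iff

theorem cpt_card {s : Equiv.Perm α} (hs : IsAut C s) (c : α) :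
    (cpt C (s c)).card = (cpt C c).card := by
  symm
  apply Finset.card_bij (fun y _ => s y)
  · intro y hy
    exact (cpt_perm hs c y).2 hy
  · intro a _ b _ hab
    exact s.injective hab
  · intro b hb
    refine ⟨s.symm b, ?_, s.apply_symm_apply b⟩
    rw [← cpt_perm hs, s.apply_symm_apply]
    exact hb

theorem Td_perm [DecidableEq α] {s : Equiv.Perm α} (hs : IsAut C s) (c v : α) :
    s v ∈ Td C (s c) ↔ v ∈ Td C c := by
  rw [mem_Td, mem_Td, cpt_perm hs, cpt_card hs, CE3.card_bk C c v s hs, s.injective.eq_iff]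

theorem Cen_perm [DecidableEq α] {s : Equiv.Perm α} (hs : IsAut C s) (b : α) :
    Cen C (s b) ↔ Cen C b := by
  constructor
  · intro h c hc hx
    exact h (s c) (fun e => hc (s.injective e)) ((Td_perm hs c b).2 hx)
  · intro h c hc hx
    have e : s (s.symm c) = c := s.apply_symm_apply c
    rw [← e] at hx hc
    exact h (s.symm c) (fun e => hc (by rw [e])) ((Td_perm hs (s.symm c) b).1 hx)

theorem stay {b v w : α} (hv : v ∈ Td C b) (hvb : v ≠ b) (h : C.Adj v w) : w ∈ Td C b := by
  rw [mem_Td] at hv ⊢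
  refine ⟨mem_cpt.2 ((mem_cpt.1 hv.1).trans h.reachable), ?_⟩
  by_cases hwb : w = b
  · exact Or.inl hwb
  · right
    have h1 := hv.2.resolve_left hvb
    have h2 : (del C b).Adj v w := ⟨h, hvb, hwb⟩
    have h3 : blk C b w = blk C b v := by
      ext y
      rw [mem_blk', mem_blk']
      exact ⟨fun g => h2.reachable.trans g, fun g => h2.symm.reachable.trans g⟩
    rw [h3]
    exact h1

end CEO

open CEO in
theorem t_CEO : S_SUB → S_CEO := by
  intro hS α _ _ C
  refine ⟨?_, ?_, ?_, ?_, ?_⟩
  · intro b _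
    exact mem_Td.2 ⟨mem_cpt.2 (SimpleGraph.Reachable.refl _), Or.inl rfl⟩
  · -- disj
    intro b hb b' hb' hne
    have hcb := (mem_Kd.1 hb).2
    have hcb' := (mem_Kd.1 hb').2
    have hself : ∀ x : α, x ∈ cpt C x := fun x => mem_cpt.2 (SimpleGraph.Reachable.refl _)
    by_cases hbb : b' ∈ cpt C b
    · rcases hS α C b with ⟨c, hco, _, hs⟩ | ⟨_, _, h3, _⟩
      · exfalso
        have key : ∀ x ∈ cpt C b, Cen C x → x = c := by
          intro x hx hcx
          by_contra hxc
          refine hcx c (Ne.symm hxc) ?_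
          rw [mem_Td, cpt_eq hco]
          exact ⟨hx, Or.inr (hs x hx hxc)⟩
        exact hne ((key b (hself b) hcb).trans (key b' hbb hcb').symm)
      · exact h3 b (hself b) b' hbb hcb hcb' hne
    · rw [disjoint_left]
      intro v hv hv'
      apply hbb
      have h1 := (mem_Td.1 hv).1
      have h2 := (mem_Td.1 hv').1
      rw [mem_cpt] at h1 h2 ⊢
      exact h1.trans h2.symm
  · -- invK
    intro s hs x
    rw [mem_Kd, mem_Kd, cpt_card hs, Cen_perm hs]
  · -- invT
    intro s hs b _
    ext y
    have e : s (s⁻¹ y) = y := s.apply_symm_apply y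
    rw [mem_im, ← Td_perm hs b (s⁻¹ y), e]
  · -- loc
    intro s hs b _ hsb
    have hT : ∀ v, s v ∈ Td C b ↔ v ∈ Td C b := by
      intro v
      have := Td_perm hs b v
      rwa [hsb] at this
    have hT' : ∀ v, s⁻¹ v ∈ Td C b ↔ v ∈ Td C b := by
      intro v
      have e : s (s⁻¹ v) = v := s.apply_symm_apply v
      rw [← hT (s⁻¹ v), e]
    have hsne : ∀ v, v ≠ b → s v ≠ b := fun v hv e => hv (s.injective (e.trans hsb.symm))
    let s' : Equiv.Perm α :=
      { toFun := fun v => if v ∈ Td C b then s v else v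
        invFun := fun v => if v ∈ Td C b then s⁻¹ v else v
        left_inv := by
          intro v
          by_cases hv : v ∈ Td C b
          · have h' := (hT v).2 hv
            simp [hv, h']
          · simp [hv]
        right_inv := by
          intro v
          by_cases hv : v ∈ Td C b
          · have h' := (hT' v).2 hv
            simp only [hv, if_true, h']
            simp
          · simp [hv] }
    have e1 : ∀ v ∈ Td C b, s' v = s v := fun v hv => if_pos hv
    have e2 : ∀ v, v ∉ Td C b → s' v = v := fun v hv => if_neg hv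
    refine ⟨s', ?_, e1, e2⟩
    have key : ∀ u v, u ∈ Td C b → v ∉ Td C b → (C.Adj (s u) v ↔ C.Adj u v) := by
      intro u v hu hv
      by_cases hub : u = b
      · rw [hub, hsb]
      · constructor
        · intro h
          exact absurd (stay ((hT u).2 hu) (hsne u hub) h) hv
        · intro h
          exact absurd (stay hu hub h) hv
    intro u v
    by_cases hu : u ∈ Td C b
    · by_cases hv : v ∈ Td C b
      · rw [e1 u hu, e1 v hv]
        exact hs u v
      · rw [e1 u hu, e2 v hv]
        exact key u v hu hv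
    · by_cases hv : v ∈ Td C b
      · rw [e2 u hu, e1 v hv, C.adj_comm, key v u hv hu, C.adj_comm]
      · rw [e2 u hu, e2 v hv]

end Pool.Agent.TRD
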