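import Pool.Agent.TRD.St

set_option autoImplicit false
set_option linter.unusedSectionVars false

namespace Pool.Agent.TRD

open Finset Pool.Agent.Lib_helper61.SwitchBasic Pool.Agent.TRC

namespace BIG

variable {α : Type} [Fintype α] [DecidableEq α] {C : SimpleGraph α}

theorem mem_cpt {c v : α} : v ∈ cpt C c ↔ C.Reachable c v := by
  classical
  simp [cpt]

theorem self_cpt (c : α) : c ∈ cpt C c := mem_cpt.2 (SimpleGraph.Reachable.refl c)

theorem cpt_eq {c v : α} (h : v ∈ cpt C c) : cpt C v = cpt C c := by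
  have h1 := mem_cpt.1 h
  ext w
  rw [mem_cpt, mem_cpt]
  exact ⟨fun g => h1.trans g, fun g => h1.symm.trans g⟩

theorem cpt_disj {c v : α} (h : v ∉ cpt C c) : Disjoint (cpt C c) (cpt C v) := by
  rw [Finset.disjoint_left]
  intro w h1 h2
  exact h (mem_cpt.2 ((mem_cpt.1 h1).trans (mem_cpt.1 h2).symm))

theorem mem_Td {c v : α} : v ∈ Td C c ↔
    v ∈ cpt C c ∧ (v = c ∨ 2 * (blk C c v).card < (cpt C c).card) := by
  classical
  simp [Td]

theorem mem_Kd {b : α} : b ∈ Kd C ↔ Fintype.card α ≤ 2 * (cpt C b).card ∧ Cen C b := by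
  classical
  simp [Kd]

theorem blk_sub (c x : α) : blk C c x ⊆ cpt C x := by
  intro y hy
  have h1 : (del C c).Reachable x y := by
    simpa [blk] using hy
  rw [mem_cpt]
  have h2 : del C c ≤ C := by
    intro a b hab
    have h3 : C.Adj a b ∧ a ≠ c ∧ b ≠ c := hab
    exact h3.1
  exact h1.mono h2

theorem alt (hSUB : S_SUB) (o : α) (X : Finset α)
    (hX : ∀ b, b ∈ X ↔ b ∈ cpt C o ∧ Cen C b) :
    (∃ c, X = {c} ∧ Td C c = cpt C o ∧
      ∀ v ∈ cpt C o, v ≠ c → 2 * (blk C c v).card < (cpt C o).card) ∨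
    (2 ≤ X.card ∧
      (∀ L : ℕ, (∃ b₁ ∈ X, ∃ b₂ ∈ X, b₁ ≠ b₂ ∧ L < (Td C b₁).card ∧ L < (Td C b₂).card) ∨
        (cpt C o).card ≤ 2 * ((X.card - 1) * L)) ∧
      (3 ≤ X.card → ∀ x ∈ X, (C.induce {v | v ∈ X ∧ v ≠ x}).Connected)) := by
  rcases hSUB α C o with ⟨c, hc, hcen, hv⟩ | ⟨h1, h2, h3, h4⟩
  · left
    have hcc := cpt_eq hc
    have hT : Td C c = cpt C o := by
      ext v
      rw [mem_Td, hcc]
      constructor
      · exact fun h => h.1
      · intro h
        refine ⟨h, ?_⟩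
        by_cases hvc : v = c
        · exact Or.inl hvc
        · exact Or.inr (hv v h hvc)
    refine ⟨c, ?_, hT, hv⟩
    ext b
    rw [hX, Finset.mem_singleton]
    constructor
    · rintro ⟨hb, hbc⟩
      by_contra hne
      exact hbc c (fun h => hne h.symm) (by rw [hT]; exact hb)
    · rintro rfl
      exact ⟨hc, hcen⟩
  · right
    have key : ∀ L : ℕ, (∃ b₁ ∈ X, ∃ b₂ ∈ X, b₁ ≠ b₂ ∧ L < (Td C b₁).card ∧
        L < (Td C b₂).card) ∨ (cpt C o).card ≤ 2 * ((X.card - 1) * L) := by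
      intro L
      by_cases hL : ∃ b₁ ∈ X, ∃ b₂ ∈ X, b₁ ≠ b₂ ∧ L < (Td C b₁).card ∧ L < (Td C b₂).card
      · exact Or.inl hL
      right
      -- a special element
      obtain ⟨b0, hb0, hsmall⟩ : ∃ b0 ∈ X, ∀ b ∈ X, b ≠ b0 → (Td C b).card ≤ L := by
        by_cases hbig : ∃ b ∈ X, L < (Td C b).card
        · obtain ⟨b, hb, hbL⟩ := hbig
          refine ⟨b, hb, fun b' hb' hne => ?_⟩
          by_contra hlt
          exact hL ⟨b, hb, b', hb', fun h => hne h.symm, hbL, not_le.1 hlt⟩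
        · obtain ⟨b, hbo, hbc, _⟩ := h2 o (self_cpt o)
          refine ⟨b, (hX b).2 ⟨hbo, hbc⟩, fun b' hb' _ => ?_⟩
          by_contra hlt
          exact hbig ⟨b', hb', not_le.1 hlt⟩
      have hcov : cpt C o ⊆ X.biUnion (Td C) := by
        intro v hv
        obtain ⟨b, hbo, hbc, hvb⟩ := h2 v hv
        exact Finset.mem_biUnion.2 ⟨b, (hX b).2 ⟨hbo, hbc⟩, hvb⟩
      have h5 : (cpt C o).card ≤ ∑ b ∈ X, (Td C b).card :=
        (Finset.card_le_card hcov).trans Finset.card_biUnion_le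
      have h6 : ∑ b ∈ X, (Td C b).card = (Td C b0).card + ∑ b ∈ X.erase b0, (Td C b).card :=
        (Finset.add_sum_erase X _ hb0).symm
      have h7 : ∑ b ∈ X.erase b0, (Td C b).card ≤ (X.erase b0).card * L := by
        rw [← smul_eq_mul]
        exact Finset.sum_le_card_nsmul _ _ _ fun b hb =>
          hsmall b (Finset.mem_of_mem_erase hb) (Finset.ne_of_mem_erase hb)
      rw [Finset.card_erase_of_mem hb0] at h7
      have h8 := h1 b0 ((hX b0).1 hb0).1
      omega
    refine ⟨?_, key, fun h => h4 X hX h⟩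
    rcases key 0 with ⟨b₁, hb₁, b₂, hb₂, hne, -, -⟩ | h
    · exact Finset.one_lt_card.2 ⟨b₁, hb₁, b₂, hb₂, hne⟩
    · have := Finset.card_pos.2 ⟨o, self_cpt (C := C) o⟩
      omega

theorem sq_lt {X : Finset α} (h132 : 132 ≤ Fintype.card α)
    (hyp : ∀ X : Finset α, 3 ≤ X.card → (∀ x ∈ X, (C.induce {v | v ∈ X ∧ v ≠ x}).Connected) →
      32 * X.card ^ 2 < Fintype.card α) (h2 : 2 ≤ X.card)
    (h3 : 3 ≤ X.card → ∀ x ∈ X, (C.induce {v | v ∈ X ∧ v ≠ x}).Connected) :
    32 * X.card ^ 2 < Fintype.card α := by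
  rcases Nat.lt_or_ge X.card 3 with h | h
  · have h4 : X.card = 2 := by omega
    rw [h4]
    omega
  · exact hyp X h (h3 h)

/-- case B with the second alternative for one of the components -/
theorem caseB {X Y : Finset α} {n0 : ℕ} (hX : X ⊆ Kd C)
    (hK : (Kd C).card ≤ X.card + Y.card) (hn : Fintype.card α ≤ 2 * n0)
    (hX2 : 2 ≤ X.card) (hXsq : 32 * X.card ^ 2 < Fintype.card α)
    (hY : Y.card = 1 ∨ 32 * Y.card ^ 2 < Fintype.card α)
    (key : ∀ L : ℕ, (∃ b₁ ∈ X, ∃ b₂ ∈ X, b₁ ≠ b₂ ∧ L < (Td C b₁).card ∧ L < (Td C b₂).card) ∨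
        n0 ≤ 2 * ((X.card - 1) * L)) :
    ∃ b₁ ∈ Kd C, ∃ b₂ ∈ Kd C, b₁ ≠ b₂ ∧ 4 * (Kd C).card < (Td C b₁).card ∧
      4 * (Kd C).card < (Td C b₂).card := by
  rcases key (4 * (Kd C).card) with ⟨b₁, hb₁, b₂, hb₂, h⟩ | h
  · exact ⟨b₁, hX hb₁, b₂, hX hb₂, h⟩
  · exfalso
    have h1 : (X.card - 1) * (4 * (Kd C).card) ≤ X.card * (4 * (X.card + Y.card)) :=
      Nat.mul_le_mul (Nat.sub_le _ _) (Nat.mul_le_mul_left 4 hK)
    rcases le_total Y.card X.card with hle | hle
    · have h2 : X.card * (4 * (X.card + Y.card)) ≤ X.card * (4 * (X.card + X.card)) := by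
        gcongr
      have h3 : X.card * (4 * (X.card + X.card)) = 8 * X.card ^ 2 := by ring
      omega
    · have h4 : 32 * Y.card ^ 2 < Fintype.card α := by
        rcases hY with hY | hY
        · omega
        · exact hY
      have h2 : X.card * (4 * (X.card + Y.card)) ≤ Y.card * (4 * (Y.card + Y.card)) := by
        gcongr
      have h3 : Y.card * (4 * (Y.card + Y.card)) = 8 * Y.card ^ 2 := by ring
      omega

end BIG

open BIG in
theorem t_BIG : S_SUB → S_BIG := by
  classical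
  intro hSUB α _ _ C h132 h4 hyp ho
  obtain ⟨o, ho⟩ := ho
  set X : Finset α := univ.filter fun b => b ∈ cpt C o ∧ Cen C b with hXd
  have hX : ∀ b, b ∈ X ↔ b ∈ cpt C o ∧ Cen C b := by
    intro b
    simp [hXd]
  have hXK : X ⊆ Kd C := by
    intro b hb
    obtain ⟨h1, h2⟩ := (hX b).1 hb
    exact mem_Kd.2 ⟨by rw [cpt_eq h1]; exact ho, h2⟩
  by_cases hA : ∀ v, Fintype.card α ≤ 2 * (cpt C v).card → v ∈ cpt C o
  · have hKX : Kd C = X := by
      refine Finset.Subset.antisymm ?_ hXK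
      intro b hb
      obtain ⟨h1, h2⟩ := mem_Kd.1 hb
      exact (hX b).2 ⟨hA b h1, h2⟩
    rcases alt hSUB o X hX with ⟨c, hc, hT, hv⟩ | ⟨h2, key, h3⟩
    · right
      refine ⟨c, by rw [hKX, hc], fun x hx => ?_⟩
      by_cases hxo : x ∈ cpt C o
      · have h5 := hv x hxo hx
        have h6 : (cpt C o).card ≤ Fintype.card α := Finset.card_le_univ _
        omega
      · have h5 : ¬ Fintype.card α ≤ 2 * (cpt C x).card := fun h => hxo (hA x h)
        have h6 := Finset.card_le_card (blk_sub (C := C) c x)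
        omega
    · left
      have hsq := sq_lt h132 hyp h2 h3
      rcases key (4 * (Kd C).card) with ⟨b₁, hb₁, b₂, hb₂, h⟩ | h
      · exact ⟨b₁, hXK hb₁, b₂, hXK hb₂, h⟩
      · exfalso
        rw [hKX] at h
        have h5 : (X.card - 1) * (4 * X.card) ≤ X.card * (4 * X.card) :=
          Nat.mul_le_mul_right _ (Nat.sub_le _ _)
        have h6 : X.card * (4 * X.card) = 4 * X.card ^ 2 := by ring
        omega
  · push Not at hA
    obtain ⟨o', ho', hoo⟩ := hA
    left
    set Y : Finset α := univ.filter fun b => b ∈ cpt C o' ∧ Cen C b with hYd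
    have hY : ∀ b, b ∈ Y ↔ b ∈ cpt C o' ∧ Cen C b := by
      intro b
      simp [hYd]
    have hYK : Y ⊆ Kd C := by
      intro b hb
      obtain ⟨h1, h2⟩ := (hY b).1 hb
      exact mem_Kd.2 ⟨by rw [cpt_eq h1]; exact ho', h2⟩
    have hdis := cpt_disj hoo
    have hcard : (cpt C o ∪ cpt C o').card = (cpt C o).card + (cpt C o').card :=
      Finset.card_union_of_disjoint hdis
    have hle : (cpt C o ∪ cpt C o').card ≤ Fintype.card α := Finset.card_le_univ _
    have huniv : cpt C o ∪ cpt C o' = univ := by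
      apply Finset.eq_univ_of_card
      omega
    have hKle : Kd C ⊆ X ∪ Y := by
      intro b hb
      obtain ⟨-, h2⟩ := mem_Kd.1 hb
      have h3 : b ∈ cpt C o ∪ cpt C o' := by rw [huniv]; exact Finset.mem_univ b
      rcases Finset.mem_union.1 h3 with h | h
      · exact Finset.mem_union_left _ ((hX b).2 ⟨h, h2⟩)
      · exact Finset.mem_union_right _ ((hY b).2 ⟨h, h2⟩)
    have hKcard : (Kd C).card ≤ X.card + Y.card :=
      (Finset.card_le_card hKle).trans (Finset.card_union_le _ _)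
    rcases alt hSUB o X hX with ⟨c, hc, hT, hv⟩ | ⟨h2, key, h3⟩
    · rcases alt hSUB o' Y hY with ⟨c', hc', hT', hv'⟩ | ⟨h2', key', h3'⟩
      · have hcX : c ∈ X := by rw [hc]; exact Finset.mem_singleton_self c
        have hcY : c' ∈ Y := by rw [hc']; exact Finset.mem_singleton_self c'
        have h5 : (Kd C).card ≤ 2 := by
          rw [hc, hc', Finset.card_singleton, Finset.card_singleton] at hKcard
          exact hKcard
        refine ⟨c, hXK hcX, c', hYK hcY, ?_, ?_, ?_⟩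
        · intro h
          rw [h] at hcX
          exact (Finset.disjoint_left.1 hdis) ((hX c').1 hcX).1 ((hY c').1 hcY).1
        · rw [hT]; omega
        · rw [hT']; omega
      · refine caseB (Y := X) hYK (by omega) ho' h2' (sq_lt h132 hyp h2' h3') (Or.inl ?_) key'
        rw [hc, Finset.card_singleton]
    · refine caseB (Y := Y) hXK hKcard ho h2 (sq_lt h132 hyp h2 h3) ?_ key
      rcases alt hSUB o' Y hY with ⟨c', hc', hT', hv'⟩ | ⟨h2', key', h3'⟩
      · left
        rw [hc', Finset.card_singleton]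
      · exact Or.inr (sq_lt h132 hyp h2' h3')

end Pool.Agent.TRD
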