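import Pool.Agent.TRD.St

/-!
# TRD (MP_e73337_co), module CMP: component sizes
-/

set_option autoImplicit false

namespace Pool.Agent.TRD

namespace CMP

open Finset

/-- The support of the component of `o` has as many elements as `cpt C o`. -/
theorem ncard_supp {α : Type} [Fintype α] (C : SimpleGraph α) (o : α) :
    (C.connectedComponentMk o).supp.ncard = (cpt C o).card := by
  classical
  rw [← Set.ncard_coe_finset]
  congr 1
  ext v
  simp only [cpt, coe_filter, mem_univ, true_and, Set.mem_ofPred_eq,
    SimpleGraph.ConnectedComponent.mem_supp_iff, SimpleGraph.ConnectedComponent.eq]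
  exact ⟨fun h => h.symm, fun h => h.symm⟩

/-- If every component has less than half of the vertices then there are at least three. -/
theorem three_le {α : Type} [Fintype α] (C : SimpleGraph α)
    (h0 : 0 < Fintype.card α) (h : ∀ o, 2 * (cpt C o).card < Fintype.card α) :
    3 ≤ Nat.card C.ConnectedComponent := by
  classical
  by_contra hlt
  have : Finite C.ConnectedComponent := Quot.finite _
  letI : Fintype C.ConnectedComponent := Fintype.ofFinite _
  rw [Nat.card_eq_fintype_card] at hlt
  have hs := Finset.card_eq_sum_card_fiberwise (f := C.connectedComponentMk)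
    (s := (univ : Finset α)) (t := univ) (fun _ _ => Finset.mem_coe.2 (mem_univ _))
  rw [card_univ] at hs
  have hb : ∀ k ∈ (univ : Finset C.ConnectedComponent),
      2 * ((univ : Finset α).filter fun v => C.connectedComponentMk v = k).card ≤
        Fintype.card α - 1 := by
    intro k _
    induction k using SimpleGraph.ConnectedComponent.ind with
    | h o =>
      have he : ((univ : Finset α).filter fun v =>
          C.connectedComponentMk v = C.connectedComponentMk o) = cpt C o := by
        ext v
        simp only [cpt, mem_filter, mem_univ, true_and, SimpleGraph.ConnectedComponent.eq]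
        exact ⟨fun h => h.symm, fun h => h.symm⟩
      rw [he]
      have := h o
      omega
  have h2 := Finset.sum_le_sum hb
  rw [← Finset.mul_sum, ← hs, Finset.sum_const, card_univ, smul_eq_mul] at h2
  have h3 : Fintype.card C.ConnectedComponent * (Fintype.card α - 1) ≤
      2 * (Fintype.card α - 1) := Nat.mul_le_mul_right _ (by omega)
  omega

end CMP

/-- CMP. -/
theorem t_CMP : S_CMP := by
  intro α _ _ C h8
  by_cases ho : ∃ o, Fintype.card α ≤ 2 * (cpt C o).card
  · exact Or.inr ho
  · left
    have ho' : ∀ o, 2 * (cpt C o).card < Fintype.card α := by
      intro o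
      by_contra hc
      exact ho ⟨o, not_lt.1 hc⟩
    refine ⟨CMP.three_le C (by omega) ho', ?_⟩
    intro k
    induction k using SimpleGraph.ConnectedComponent.ind with
    | h o =>
      rw [CMP.ncard_supp]
      have := ho' o
      omega

end Pool.Agent.TRD
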