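import Pool.Agent.TRD.Gen
import Pool.Agent.TRD.MCMP
import Pool.Agent.TRD.MBIG
import Pool.Agent.TRB.MNUM
import Pool.Agent.TRB.MIMG
import Pool.Agent.TRB.MDEG

/-!
# TRD: graphs with small blocks, from the cut vertex theorem (helper94)
-/

set_option autoImplicit false

namespace Pool.Agent.TRD

open Finset Pool.Agent.Lib_helper61.SwitchBasic Pool.Agent.Lib_helper61.SwMain Pool.Agent.TRC

section

variable {α : Type} [Fintype α] [DecidableEq α]

theorem sub : S_SUB :=
  t_SUB TRB.t_CE1 (TRB.t_CE2 TRB.t_CE1) (TRB.t_CE3 TRB.t_CE1 (TRB.t_CE2 TRB.t_CE1))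
    (TRB.t_CE4 TRB.t_CE1 (TRB.t_CE3 TRB.t_CE1 (TRB.t_CE2 TRB.t_CE1)))

/-- The centre of a component. -/
theorem centre (C : SimpleGraph α) (o : α) : (∃ c, Td C c = cpt C o) ∨
    ∃ X : Finset α, (∀ b, b ∈ X ↔ b ∈ cpt C o ∧ Cen C b) ∧ 2 ≤ X.card ∧
      (3 ≤ X.card → ∀ x ∈ X, (C.induce {v | v ∈ X ∧ v ≠ x}).Connected) ∧
      (cpt C o).card ≤ ∑ b ∈ X, (Td C b).card := by
  classical
  obtain ⟨X, hX⟩ : ∃ X : Finset α, ∀ b, b ∈ X ↔ b ∈ cpt C o ∧ Cen C b :=
    ⟨univ.filter fun b => b ∈ cpt C o ∧ Cen C b, fun b => by simp⟩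
  rcases sub α C o with ⟨c, hc, -, hv⟩ | ⟨h1, h2, h3, h4⟩
  · left
    refine ⟨c, ?_⟩
    have hcc : cpt C c = cpt C o := CEO.cpt_eq hc
    ext v
    rw [CEO.mem_Td, hcc]
    constructor
    · exact fun h => h.1
    · intro h
      refine ⟨h, ?_⟩
      by_cases hvc : v = c
      · exact Or.inl hvc
      · exact Or.inr (hv v h hvc)
  · right
    have hcov : cpt C o ⊆ X.biUnion (Td C) := by
      intro v hv
      obtain ⟨b, hbo, hbc, hvb⟩ := h2 v hv
      exact mem_biUnion.2 ⟨b, (hX b).2 ⟨hbo, hbc⟩, hvb⟩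
    have h5 : (cpt C o).card ≤ ∑ b ∈ X, (Td C b).card :=
      (card_le_card hcov).trans card_biUnion_le
    refine ⟨X, hX, ?_, fun h => h4 X hX h, h5⟩
    have h6 : ∑ b ∈ X, 2 * (Td C b).card ≤ X.card * (cpt C o).card := by
      rw [← smul_eq_mul]
      exact sum_le_card_nsmul _ _ _ fun b hb => h1 b ((hX b).1 hb).1
    rw [← mul_sum] at h6
    have h7 : 0 < (cpt C o).card := card_pos.2 ⟨o, self_cpt C o⟩
    by_contra hcon
    have h8 : X.card ≤ 1 := by omega
    have h9 : X.card * (cpt C o).card ≤ 1 * (cpt C o).card := Nat.mul_le_mul_right _ h8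
    omega

/-- **Graphs with small blocks, connected or not.** -/
theorem blocks_gen (C : SimpleGraph α) (hA : ∀ σ, IsClassAut C σ → IsAut C σ)
    (hp : 64 < Fintype.card α)
    (hX : ∀ X : Finset α, 3 ≤ X.card → (∀ x ∈ X, (C.induce {v | v ∈ X ∧ v ≠ x}).Connected) →
      16 * X.card ^ 2 < Fintype.card α) : TRC.AllRec C := by
  intro t t' hdeck
  by_contra hne
  obtain ⟨⟨m, hm⟩, h0⟩ := four_dvd hdeck hne
  have h4 : Fintype.card α ≠ 4 := by omega
  apply hne
  rcases t_CMP α C (by omega) with ⟨h3, hs⟩ | ⟨o, ho⟩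
  · exact main_comps h4 h3 hs hA t (by rw [sw_sw, symmDiff_self, Finset.bot_eq_empty, sw_empty])
      hdeck
  · rcases centre C o with ⟨c, hc⟩ | ⟨X, hXm, h2, hconn, hcov⟩
    · refine cut_general C hA c (Or.inr ?_) t t' hdeck
      rw [hc]
      nlinarith
    · have h5 : 16 * X.card ^ 2 < Fintype.card α := by
        rcases Nat.lt_or_ge X.card 3 with h | h
        · have h6 : X.card = 2 := by omega
          rw [h6]
          omega
        · exact hX X h (hconn h)
      obtain ⟨b, -, hb⟩ := TRB.num_family X (Td C) (cpt C o).card (Fintype.card α) hcov (by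
        have h6 : 16 * X.card ^ 2 * Fintype.card α < Fintype.card α * Fintype.card α :=
          Nat.mul_lt_mul_of_pos_right h5 (by omega)
        have h7 : Fintype.card α * Fintype.card α ≤ (2 * (cpt C o).card) * (2 * (cpt C o).card) :=
          Nat.mul_le_mul ho ho
        nlinarith)
      exact cut_general C hA b (Or.inr hb) t t' hdeck

/-- **Connected graphs with small blocks.** -/
theorem blocks_conn (C : SimpleGraph α) (hC : C.Connected)
    (hA : ∀ σ, IsClassAut C σ → IsAut C σ) (hp : 16 < Fintype.card α)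
    (hX : ∀ X : Finset α, 3 ≤ X.card → (∀ x ∈ X, (C.induce {v | v ∈ X ∧ v ≠ x}).Connected) →
      4 * X.card ^ 2 < Fintype.card α ∨
      4 * Nat.card (C.induce {v | v ∈ X} ≃g C.induce {v | v ∈ X}) < 2 ^ (X.card - X.card / 2)) :
    TRC.AllRec C := by
  obtain ⟨o⟩ := hC.nonempty
  have hall : ∀ v, v ∈ cpt C o := fun v => CEO.mem_cpt.2 (hC.preconnected o v)
  have hn : (cpt C o).card = Fintype.card α := by
    rw [← card_univ]
    congr 1
    ext v
    simp [hall v]
  rcases centre C o with ⟨c, hc⟩ | ⟨X, hXm, h2, hconn, hcov⟩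
  · refine cut_general C hA c (Or.inr ?_)
    rw [hc, hn]
    nlinarith
  · have hsmall : 4 * X.card ^ 2 < Fintype.card α → TRC.AllRec C := by
      intro h5
      obtain ⟨b, -, hb⟩ := TRB.num_family X (Td C) (cpt C o).card (Fintype.card α) hcov (by
        rw [hn, pow_two (Fintype.card α)]
        exact Nat.mul_lt_mul_of_pos_right h5 (by omega))
      exact cut_general C hA b (Or.inr hb)
    rcases Nat.lt_or_ge X.card 3 with h | h
    · have h6 : X.card = 2 := by omega
      apply hsmall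
      rw [h6]
      omega
    · rcases hX X h (hconn h) with h7 | h7
      · exact hsmall h7
      · refine TRB.t_IMG α C X hA (fun s hs x => ?_) h7
        rw [hXm, hXm, CEO.Cen_perm hs]
        exact ⟨fun g => ⟨hall x, g.2⟩, fun g => ⟨hall (s x), g.2⟩⟩

/-- Graphs of small degree. -/
theorem deg_aut (C : SimpleGraph α) (hd : ∀ v, 4 * (C.neighborSet v).ncard < Fintype.card α) :
    ∀ σ, IsClassAut C σ → IsAut C σ := by
  classical
  refine TRB.t_DEG α C fun v => ?_
  have h := hd v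
  rwa [Set.ncard_eq_toFinset_card', Set.toFinset_card, SimpleGraph.card_neighborSet_eq_degree] at h

end

end Pool.Agent.TRD
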