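import Pool.Agent.TRD.St

/-!
# TRD: small blocks, assembly
-/

set_option autoImplicit false

namespace Pool.Agent.TRD

open Finset Pool.Agent.Lib_helper61.SwitchBasic Pool.Agent.Lib_helper61.SwMain Pool.Agent.TRC

/-- Graphs with small blocks, connected or not. -/
theorem small_blocks (hTW0 : S_TW0) (hCEO : S_CEO) (hBIG : S_BIG) (hCMP : S_CMP) {α : Type}
    [Fintype α] [DecidableEq α] (hp : 128 < Fintype.card α) (C : SimpleGraph α)
    (hA : ∀ σ, IsClassAut C σ → IsAut C σ)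
    (hX : ∀ X : Finset α, 3 ≤ X.card → (∀ x ∈ X, (C.induce {v | v ∈ X ∧ v ≠ x}).Connected) →
      32 * X.card ^ 2 < Fintype.card α) : AllRec C := by
  intro t t' hdeck
  by_contra hne
  obtain ⟨⟨m, hm⟩, h0⟩ := four_dvd hdeck hne
  have h4 : Fintype.card α ≠ 4 := by omega
  apply hne
  rcases hCMP α C (by omega) with ⟨h3, hs⟩ | ho
  · exact main_comps h4 h3 hs hA t (by rw [sw_sw, symmDiff_self, Finset.bot_eq_empty, sw_empty])
      hdeck
  · rcases hBIG α C (by omega) (by omega) hX ho with ⟨b₁, hb₁, b₂, hb₂, hb, h1, h2⟩ | ⟨c, hK, hc⟩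
    · exact hTW0 α C (Kd C) (Td C) (hCEO α C) hA b₁ hb₁ b₂ hb₂ hb h1 h2 t t' hdeck
    · refine central_vertex h4 C c hc (fun σ hσ => ?_) t t' hdeck
      have h5 := ((hCEO α C).invK σ (hA σ hσ) c).2 (by rw [hK]; exact mem_singleton_self c)
      rw [hK, mem_singleton] at h5
      exact h5

end Pool.Agent.TRD
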