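import Pool.Agent.TRB.St
import Pool.Agent.TRC.Asm

/-!
# TRD (MP_e73337_co): switching classes of graphs with small blocks, connected or not

Extension of `Pool/Agent/TRB` (helper85) to disconnected graphs. Every `S_xxx` is proved in the file
`Pool/Agent/TRD/Mxxx.lean` as `theorem t_xxx : S_xxx` (namespace `Pool.Agent.TRD`), with other statements
as hypotheses where the doc string says so.
-/

set_option autoImplicit false

namespace Pool.Agent.TRD

open Finset Pool.Agent.Lib_helper61.SwitchBasic Pool.Agent.TRC

/-- A centre as in `TRB.Central`, but the branches need not cover the vertex set. -/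
structure Central0 {α : Type} [DecidableEq α] (C : SimpleGraph α) (K : Finset α)
    (T : α → Finset α) : Prop where
  root : ∀ b ∈ K, b ∈ T b
  disj : ∀ b ∈ K, ∀ b' ∈ K, b ≠ b' → Disjoint (T b) (T b')
  invK : ∀ s, IsAut C s → ∀ x, s x ∈ K ↔ x ∈ K
  invT : ∀ s, IsAut C s → ∀ b ∈ K, im s (T b) = T (s b)
  loc : ∀ s, IsAut C s → ∀ b ∈ K, s b = b →
    ∃ s', IsAut C s' ∧ (∀ v ∈ T b, s' v = s v) ∧ ∀ v, v ∉ T b → s' v = v

/-- TW0. PROOF. The proofs of `TRB` (`t_CRD`, `t_EXS`, `t_KAP`, `t_TWO`; `t_MIS` does not mention the
centre) do not use `Central.cover`: copy them with `Central0` in place of `Central`. -/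
def S_TW0 : Prop :=
  ∀ (α : Type) [Fintype α] [DecidableEq α] (C : SimpleGraph α) (K : Finset α) (T : α → Finset α),
    Central0 C K T → (∀ σ, IsClassAut C σ → IsAut C σ) → ∀ b₁ ∈ K, ∀ b₂ ∈ K, b₁ ≠ b₂ →
    4 * K.card < (T b₁).card → 4 * K.card < (T b₂).card → AllRec C

open Classical in
/-- The component of `c`. -/
noncomputable def cpt {α : Type} [Fintype α] (C : SimpleGraph α) (c : α) : Finset α :=
  univ.filter fun v => C.Reachable c v

open Classical in
/-- The vertex `c` and the components of `C - c` inside the component of `c` which have less than half of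
the vertices of the component of `c`. -/
noncomputable def Td {α : Type} [Fintype α] (C : SimpleGraph α) (c : α) : Finset α :=
  univ.filter fun v => v ∈ cpt C c ∧ (v = c ∨ 2 * (blk C c v).card < (cpt C c).card)

/-- `b` is in the centre of its component. -/
def Cen {α : Type} [Fintype α] (C : SimpleGraph α) (b : α) : Prop := ∀ c, c ≠ b → b ∉ Td C c

open Classical in
/-- The centres of the components with at least half of all vertices. -/
noncomputable def Kd {α : Type} [Fintype α] (C : SimpleGraph α) : Finset α :=
  univ.filter fun b => Fintype.card α ≤ 2 * (cpt C b).card ∧ Cen C b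

/-- SUB (prove `theorem t_SUB : TRB.S_CE1 → TRB.S_CE2 → TRB.S_CE3 → TRB.S_CE4 → S_SUB`). The centre of the
component of `o`: a central vertex, or the central block. PROOF. Let `β = {v // v ∈ cpt C o}` and
`D = C.comap Subtype.val` (the induced graph), a connected graph with `card β = (cpt C o).card`. For
`c, v ∈ β`: `v ∈ cpt C c`, `cpt C c = cpt C o`, and `blk C c v` is the image of `blk D c v` (for `v ≠ c` a walk of
`del C c` from `v` stays in the component; for `v = c` both are `{c}`), so the cardinalities are equal. So
`Td C c` is the image of `TRB.Tc D c`, and `b ∈ β` satisfies `Cen C b` iff `b ∈ TRB.KK D` (for `c ∉ β`: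
`Td C c ⊆ cpt C c` does not contain `b`). If `TRB.NoC D` fails, there is a central vertex `c`: first
alternative. Otherwise (i) is CE1 for `D`, (ii), (iii) are `cover`, `disj` of CE3 for `D` (for `b, b'` in the
component), (iv) is CE4 for `D` (the graphs induced by `C` and by `D` on corresponding sets are
isomorphic). In the first alternative `Cen C c`: suppose `c ∈ Td C c'`, `c' ≠ c` (so `c'` is in the
component), `2 |blk C c' c| < n0 = |cpt C o|`. Let `B = blk C c c'`, `2 |B| < n0`. Every vertex of the
component outside `B` is joined to `c` by a walk that avoids `c'` (compare `t_FIX`, `Pool/Agent/TRC/MFIX.lean`),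
so it is in `blk C c' c`, so `n0 ≤ |B| + |blk C c' c| < n0`, contradiction. -/
def S_SUB : Prop :=
  ∀ (α : Type) [Fintype α] [DecidableEq α] (C : SimpleGraph α) (o : α),
    (∃ c ∈ cpt C o, Cen C c ∧
      ∀ v ∈ cpt C o, v ≠ c → 2 * (blk C c v).card < (cpt C o).card) ∨
    ((∀ c ∈ cpt C o, 2 * (Td C c).card ≤ (cpt C o).card) ∧
     (∀ v ∈ cpt C o, ∃ b ∈ cpt C o, Cen C b ∧ v ∈ Td C b) ∧
     (∀ b ∈ cpt C o, ∀ b' ∈ cpt C o, Cen C b → Cen C b' → b ≠ b' → Disjoint (Td C b) (Td C b')) ∧
     ∀ X : Finset α, (∀ b, b ∈ X ↔ b ∈ cpt C o ∧ Cen C b) → 3 ≤ X.card →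
       ∀ x ∈ X, (C.induce {v | v ∈ X ∧ v ≠ x}).Connected)

/-- CEO (prove `theorem t_CEO : S_SUB → S_CEO`). PROOF. root: `c ∈ cpt C c`. `Td C c ⊆ cpt C c`. disj: if
`b, b'` are in different components their branches are disjoint; in the same component use SUB with
`o = b`: in the second alternative (iii); in the first alternative, with the central vertex `c`,
`Td C c = cpt C c`, so every `b ≠ c` of the component is in `Td C c` and not `Cen`: so `b = c = b'`. An
automorphism `s` maps `cpt C c` onto `cpt C (s c)` and `blk C c v` onto `blk C (s c) (s v)` (it maps `del C c`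
to `del C (s c)`), so `Td C c` onto `Td C (s c)`, and `Cen C (s b) ↔ Cen C b`: invK, invT. loc: `s b = b`:
`s' v = s v` for `v ∈ Td C b` and `= v` otherwise; `s` maps `Td C b` onto itself; an edge `vw` of `C` with
`v ∈ Td C b`, `w ∉ Td C b` has `v = b` (if `v ≠ b` then `w = b` or `blk C b w = blk C b v`, and `w` is in the
component, so `w ∈ Td C b`); for such an edge (`v = b`) `s' b = b`, `s' w = w`; and the same for
non-edges. -/
def S_CEO : Prop :=
  ∀ (α : Type) [Fintype α] [DecidableEq α] (C : SimpleGraph α), Central0 C (Kd C) (Td C)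

/-- BIG (prove `theorem t_BIG : S_SUB → S_BIG`). Two large branches, or a central vertex. PROOF.
`p = card α ≥ 132`, `K = Kd C`, `m = |K|`. Let `o` be as in the hypothesis, `n0 = |cpt C o|`, `p ≤ 2 n0`.
Case A: all vertices `v` with `p ≤ 2 |cpt C v|` are in `cpt C o`. Then `K` is the set of the centres of this
component. If the first alternative of SUB holds for `o` with the vertex `c`: then `K = {c}`
(`Td C c = cpt C o`), and every component of `C - c` has less than `p/2` vertices: inside the component
`2 |blk| < n0 ≤ p`; for `x` outside, `blk C c x ⊆ cpt C x` and `2 |cpt C x| < p` by the assumption of the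
case. This is the second alternative of the statement (`Kd C = {c}`: `c` is `Cen` by SUB; every other vertex
`b` of the component is in `Td C c`, so not `Cen`). If the second alternative of SUB holds: `m ≥ 2` (by
(ii) and (i) the branches `Td C b`, `b ∈ K`, cover `cpt C o` and have at most `n0 / 2` vertices). If `m ≥ 3`,
(iv) and the hypothesis give `32 m ^ 2 < p`; if `m = 2` this holds as `p > 128`. If at most one branch
had more than `4 m` vertices then `n0 ≤ n0 / 2 + (m - 1) * 4 m`, so `n0 ≤ 8 m (m - 1)`, `p ≤ 16 m ^ 2`,
contradiction.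
Case B: there is `o'` with `p ≤ 2 |cpt C o'|` which is not in `cpt C o`. Then both components have exactly
`p / 2` vertices and there are no others, `K` is the union of `K1`, `K2`, the centres of the two components,
`m = m1 + m2`. A component with the first alternative (vertex `c`) has `Ki = {c}`, `Td C c` is the component,
with `p / 2` vertices. If both are of this kind, `m = 2`, two branches with `p / 2 > 8` vertices. Otherwise
let `mu = max m1 m2 ≥ 2`; `32 mu ^ 2 < p` (from (iv) and the hypothesis if `mu ≥ 3`, from `p > 128` if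
`mu = 2`). Take a component, say the first, with the second alternative; its branches cover its `p / 2`
vertices and have at most `p / 4` each; if at most one had more than `4 m` vertices then
`p / 2 ≤ p / 4 + (m1 - 1) * 4 m`, so `p ≤ 16 (m1 - 1) (m1 + m2) ≤ 32 mu ^ 2`, contradiction. -/
def S_BIG : Prop :=
  ∀ (α : Type) [Fintype α] [DecidableEq α] (C : SimpleGraph α), 132 ≤ Fintype.card α →
    Fintype.card α % 4 = 0 →
    (∀ X : Finset α, 3 ≤ X.card → (∀ x ∈ X, (C.induce {v | v ∈ X ∧ v ≠ x}).Connected) →
      32 * X.card ^ 2 < Fintype.card α) →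
    (∃ o, Fintype.card α ≤ 2 * (cpt C o).card) →
    (∃ b₁ ∈ Kd C, ∃ b₂ ∈ Kd C, b₁ ≠ b₂ ∧ 4 * (Kd C).card < (Td C b₁).card ∧
      4 * (Kd C).card < (Td C b₂).card) ∨
    ∃ c, Kd C = {c} ∧ ∀ x, x ≠ c → 2 * (blk C c x).card < Fintype.card α

/-- CMP. If there are fewer than three components, or a component with more than `card α - 3` vertices,
then some component has at least half of the vertices. -/
def S_CMP : Prop :=
  ∀ (α : Type) [Fintype α] [DecidableEq α] (C : SimpleGraph α), 8 ≤ Fintype.card α →
    (3 ≤ Nat.card C.ConnectedComponent ∧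
      ∀ k : C.ConnectedComponent, k.supp.ncard + 3 ≤ Fintype.card α) ∨
    ∃ o, Fintype.card α ≤ 2 * (cpt C o).card

end Pool.Agent.TRD
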