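import Pool.Agent.TRB.MMIS
import Pool.Agent.TRB.MEXS
import Pool.Agent.TRB.MCRD
import Pool.Agent.TRD.St

/-!
# TRD: a fixed vertex and two invariant sets (helper94)
-/

set_option autoImplicit false

namespace Pool.Agent.TRD

open Finset Pool.Agent.Lib_helper61.SwitchBasic Pool.Agent.Lib_helper61.SwMain Pool.Agent.TRC

/-- Exchange of the trace on a set that misses a cardinality. -/
theorem exg {α : Type} [Fintype α] [DecidableEq α] (C : SimpleGraph α) {t t' : Finset α}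
    (hdeck : SameDeck (sw C t) (sw C t')) (hne : ¬ Nonempty (sw C t ≃g sw C t')) (b : α)
    (X : Finset α) (k : ℕ) (hk : k ≤ X.card)
    (hcrd : ∀ S, (Nonempty (sw C S ≃g sw C t) ∨ Nonempty (sw C S ≃g sw C t')) →
      (S ∩ X).card ≠ k) :
    ∀ S, Nonempty (sw C S ≃g sw C t) → ∃ S', Nonempty (sw C S' ≃g sw C t') ∧ S' \ X = S \ X := by
  obtain ⟨Z₀, hZ, hZk⟩ := Finset.exists_subset_card_eq hk
  obtain ⟨T₀, hT₀⟩ := exists_sw hdeck b
  have c1 : 0 < cnt (sw C t) (sw C t') := cnt_pos _ _ T₀ hT₀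
  obtain ⟨F, hF⟩ : ∃ F : Finset α → ℚ,
      F = fun S => ff (sw C t) (sw C t') (symmDiff t S) := ⟨_, rfl⟩
  have hval : ∀ S, F S = cnt (sw C t) (sw C t') * ind (sw C S) (sw C t) -
      cnt (sw C t) (sw C t) * ind (sw C S) (sw C t') := by
    intro S
    rw [hF]
    show ff (sw C t) (sw C t') (symmDiff t S) = _
    unfold ff
    rw [sw_sw, symmDiff_symmDiff_cancel_left]
  have hsum : ∀ S, ∑ i : α, F (symmDiff S {i}) = 0 := by
    intro S
    rw [← sum_ff hdeck (symmDiff t S)]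
    refine Finset.sum_congr rfl fun i _ => ?_
    rw [hF]
    show ff (sw C t) (sw C t') (symmDiff t (symmDiff S {i})) = _
    rw [symmDiff_assoc]
  have hexcl : ∀ S, Nonempty (sw C S ≃g sw C t) → ¬ Nonempty (sw C S ≃g sw C t') := by
    rintro S ⟨φ⟩ ⟨ψ⟩
    exact hne ⟨φ.symm.trans ψ⟩
  have hvan : ∀ S, S ∩ X = Z₀ → F S = 0 := by
    intro S hS
    have h3 : ¬ Nonempty (sw C S ≃g sw C t) := by
      intro h
      refine hcrd S (Or.inl h) ?_
      rw [hS, hZk]
    have h4 : ¬ Nonempty (sw C S ≃g sw C t') := by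
      intro h
      refine hcrd S (Or.inr h) ?_
      rw [hS, hZk]
    rw [hval, ind_of_not _ _ h3, ind_of_not _ _ h4]
    ring
  intro S hS
  have hpos : 0 < F S := by
    rw [hval, ind_of _ _ hS, ind_of_not _ _ (hexcl S hS)]
    linarith
  obtain ⟨S', hneg, hS'⟩ := TRB.EXS.core TRB.t_MIS F hsum hZ hvan hpos
  refine ⟨S', ?_, hS'⟩
  by_contra hno
  rw [hval, ind_of_not _ _ hno] at hneg
  have h5 := mul_nonneg c1.le (ind_nonneg (sw C S') (sw C t))
  linarith

/-- An invariant set with at least four elements misses a cardinality. -/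
theorem miss {α : Type} [Fintype α] [DecidableEq α] (C : SimpleGraph α)
    (hA : ∀ σ, IsClassAut C σ → IsAut C σ) (t t' X : Finset α)
    (hX : ∀ s, IsAut C s → ∀ x, s x ∈ X ↔ x ∈ X) (h4 : 4 ≤ X.card) :
    ∃ k ≤ X.card, ∀ S, (Nonempty (sw C S ≃g sw C t) ∨ Nonempty (sw C S ≃g sw C t')) →
      (S ∩ X).card ≠ k := by
  set V : Finset ℕ := {(t ∩ X).card, X.card - (t ∩ X).card, (t' ∩ X).card,
    X.card - (t' ∩ X).card} with hV
  have hVc : V.card ≤ 4 := Finset.card_le_four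
  obtain ⟨k, hk1, hk2⟩ := Finset.exists_mem_notMem_of_card_lt_card
    (s := V) (t := Finset.range (X.card + 1)) (by rw [Finset.card_range]; omega)
  refine ⟨k, by rw [Finset.mem_range] at hk1; omega, ?_⟩
  have key : ∀ (S q : Finset α), Nonempty (sw C S ≃g sw C q) →
      (S ∩ X).card = (q ∩ X).card ∨ (S ∩ X).card = X.card - (q ∩ X).card := by
    intro S q h
    obtain ⟨s, hs, hS⟩ := (iso_iff hA S q).1 h
    have htr : (im s q ∩ X).card = (q ∩ X).card := by
      rw [← TRB.CRD.card_im s (q ∩ X)]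
      congr 1
      ext x
      rw [mem_im, Finset.mem_inter, Finset.mem_inter, mem_im]
      have h1 := hX s (mem_AA.1 hs) (s⁻¹ x)
      rw [show s (s⁻¹ x) = x from s.apply_symm_apply x] at h1
      rw [h1]
    rcases hS with hS | hS
    · left
      rw [← hS]
      exact htr
    · right
      have e : S ∩ X = X \ (im s q ∩ X) := by
        rw [hS]
        ext x
        simp only [Finset.mem_inter, Finset.mem_sdiff, Finset.mem_compl]
        tauto
      rw [e, Finset.card_sdiff_of_subset Finset.inter_subset_right, htr]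
  intro S hS hcon
  apply hk2
  rw [hV]
  simp only [Finset.mem_insert, Finset.mem_singleton]
  rcases hS with hS | hS
  · rcases key S t hS with h | h
    · exact Or.inl (by rw [← h, hcon])
    · exact Or.inr (Or.inl (by rw [← h, hcon]))
  · rcases key S t' hS with h | h
    · exact Or.inr (Or.inr (Or.inl (by rw [← h, hcon])))
    · exact Or.inr (Or.inr (Or.inr (by rw [← h, hcon])))

/-- **A fixed vertex and two invariant sets.** -/
theorem fixed_vertex {α : Type} [Fintype α] [DecidableEq α] (C : SimpleGraph α)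
    (hA : ∀ σ, IsClassAut C σ → IsAut C σ) (b : α) (hb : ∀ s, IsAut C s → s b = b)
    (X R : Finset α) (hbX : b ∉ X) (hbR : b ∉ R) (hXR : Disjoint X R)
    (hX : ∀ s, IsAut C s → ∀ x, s x ∈ X ↔ x ∈ X)
    (hR : ∀ s, IsAut C s → ∀ x, s x ∈ R ↔ x ∈ R) (hX4 : 4 ≤ X.card) (hR4 : 4 ≤ R.card)
    (hloc : ∀ s, IsAut C s →
      ∃ s', IsAut C s' ∧ (∀ v ∈ X, s' v = s v) ∧ ∀ v, v ∉ X → s' v = v) : AllRec C := by
  intro t t' hdeck
  by_contra hne
  obtain ⟨k, hk, hcrd⟩ := miss C hA t t' X hX hX4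
  obtain ⟨l, hl, hcrd'⟩ := miss C hA t t' R hR hR4
  have hself : Nonempty (sw C t ≃g sw C t) := ⟨SimpleGraph.Iso.refl⟩
  obtain ⟨S₁, h1, e1⟩ := exg C hdeck hne b X k hk hcrd t hself
  obtain ⟨S₂, h2, e2⟩ := exg C hdeck hne b R l hl hcrd' t hself
  have hiso : Nonempty (sw C S₂ ≃g sw C S₁) := by
    obtain ⟨φ⟩ := h1
    obtain ⟨ψ⟩ := h2
    exact ⟨ψ.trans φ.symm⟩
  obtain ⟨s, hs, hS⟩ := (iso_iff hA S₂ S₁).1 hiso
  have hsA := mem_AA.1 hs
  have m1 : ∀ x, x ∉ X → (x ∈ S₁ ↔ x ∈ t) := by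
    intro x hx
    have := congrArg (fun Z => x ∈ Z) e1
    simp only [mem_sdiff, hx, not_false_eq_true, and_true, eq_iff_iff] at this
    exact this
  have m2 : ∀ x, x ∉ R → (x ∈ S₂ ↔ x ∈ t) := by
    intro x hx
    have := congrArg (fun Z => x ∈ Z) e2
    simp only [mem_sdiff, hx, not_false_eq_true, and_true, eq_iff_iff] at this
    exact this
  have hsb : s⁻¹ b = b := by
    have := hb s hsA
    rw [Equiv.Perm.inv_eq_iff_eq, this]
  have hS' : im s S₁ = S₂ := by
    rcases hS with h | h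
    · exact h
    · exfalso
      have h3 : b ∈ im s S₁ ↔ b ∈ S₁ := by rw [mem_im, hsb]
      rw [h, mem_compl, m1 b hbX, m2 b hbR] at h3
      tauto
  obtain ⟨s', hs', hin, hout⟩ := hloc s hsA
  apply hne
  have ht : im s' S₁ = t := by
    ext x
    rw [mem_im]
    by_cases hx : x ∈ X
    · -- `s'⁻¹ x = s⁻¹ x`
      have h3 : s⁻¹ x ∈ X := by
        have h4 := hX s hsA (s⁻¹ x)
        rw [show s (s⁻¹ x) = x from s.apply_symm_apply x] at h4
        exact h4.1 hx
      have h5 : s' (s⁻¹ x) = x := by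
        rw [hin _ h3]
        exact s.apply_symm_apply x
      have h6 : s'⁻¹ x = s⁻¹ x := by
        rw [Equiv.Perm.inv_eq_iff_eq, h5]
      rw [h6, ← mem_im, hS', m2 x (disjoint_left.1 hXR hx)]
    · have h6 : s'⁻¹ x = x := by
        rw [Equiv.Perm.inv_eq_iff_eq, hout x hx]
      rw [h6, m1 x hx]
  obtain ⟨φ⟩ := iso_im (mem_AA.2 hs') S₁
  rw [ht] at φ
  obtain ⟨ψ⟩ := h1
  exact ⟨φ.symm.trans ψ⟩

end Pool.Agent.TRD
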