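import Pool.Agent.TRD.St
import Pool.Agent.TRC.MFIX

/-!
# TRD, module SUB: the centre of a component
-/

set_option autoImplicit false

namespace Pool.Agent.TRD

open Finset Pool.Agent.Lib_helper61.SwitchBasic Pool.Agent.TRC

namespace SUB

section

variable {α : Type} [Fintype α]

theorem mem_cpt (C : SimpleGraph α) (c v : α) : v ∈ cpt C c ↔ C.Reachable c v := by
  classical
  simp [cpt]

theorem mem_Td (C : SimpleGraph α) (c v : α) :
    v ∈ Td C c ↔ v ∈ cpt C c ∧ (v = c ∨ 2 * (blk C c v).card < (cpt C c).card) := by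
  classical
  simp [Td]

theorem mem_Tc {β : Type} [Fintype β] (C : SimpleGraph β) (c v : β) :
    v ∈ TRB.Tc C c ↔ v = c ∨ 2 * (blk C c v).card < Fintype.card β := by
  classical
  simp [TRB.Tc]

theorem mem_KK {β : Type} [Fintype β] (C : SimpleGraph β) (v : β) :
    v ∈ TRB.KK C ↔ ∀ c, c ≠ v → v ∉ TRB.Tc C c := by
  classical
  simp [TRB.KK]

theorem cpt_eq (C : SimpleGraph α) {o c : α} (h : c ∈ cpt C o) : cpt C c = cpt C o := by
  ext v
  rw [mem_cpt] at h
  rw [mem_cpt, mem_cpt]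
  exact ⟨fun g => h.trans g, fun g => h.symm.trans g⟩

/-- The graph induced on the component of `o`. -/
abbrev sb (C : SimpleGraph α) (o : α) : SimpleGraph {v // v ∈ cpt C o} := C.comap Subtype.val

/-- A walk of a subgraph inside the component. -/
theorem lift (C G : SimpleGraph α) (hG : G ≤ C) (o : α) :
    ∀ {x y : α} (_ : G.Walk x y) (hx : x ∈ cpt C o) (hy : y ∈ cpt C o),
      (G.comap (Subtype.val : {v // v ∈ cpt C o} → α)).Reachable ⟨x, hx⟩ ⟨y, hy⟩
  | _, _, .nil, _, _ => SimpleGraph.Reachable.refl _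
  | x, _, .cons (v := x1) h p, hx, hy => by
    have h1 : x1 ∈ cpt C o := by
      rw [mem_cpt] at hx ⊢
      exact hx.trans (hG h).reachable
    have ih := lift C G hG o p h1 hy
    have hadj : (G.comap (Subtype.val : {v // v ∈ cpt C o} → α)).Adj ⟨x, hx⟩ ⟨x1, h1⟩ := h
    exact hadj.reachable.trans ih

omit [Fintype α] in
theorem del_le (C : SimpleGraph α) (c : α) : del C c ≤ C := fun _ _ h => h.1

theorem del_sb (C : SimpleGraph α) (o : α) (c : {v // v ∈ cpt C o}) :
    del (sb C o) c = (del C c.1).comap Subtype.val := by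
  ext u v
  show (C.Adj u.1 v.1 ∧ u ≠ c ∧ v ≠ c) ↔ (C.Adj u.1 v.1 ∧ u.1 ≠ c.1 ∧ v.1 ≠ c.1)
  rw [Ne, Ne, Subtype.ext_iff, Subtype.ext_iff]

theorem reach_del (C : SimpleGraph α) (o : α) (c x y : {v // v ∈ cpt C o}) :
    (del (sb C o) c).Reachable x y ↔ (del C c.1).Reachable x.1 y.1 := by
  rw [del_sb]
  constructor
  · intro h
    exact h.map (⟨Subtype.val, fun g => g⟩ : (del C c.1).comap Subtype.val →g del C c.1)
  · rintro ⟨w⟩
    exact lift C (del C c.1) (del_le C c.1) o w x.2 y.2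

theorem conn (C : SimpleGraph α) (o : α) : (sb C o).Connected := by
  have ho : o ∈ cpt C o := by
    rw [mem_cpt]
  have : Nonempty {v // v ∈ cpt C o} := ⟨⟨o, ho⟩⟩
  refine ⟨fun x y => ?_⟩
  have hx := x.2
  have hy := y.2
  rw [mem_cpt] at hx hy
  obtain ⟨w⟩ := hx.symm.trans hy
  exact lift C C le_rfl o w x.2 y.2

theorem map_blk (C : SimpleGraph α) (o : α) (c v : {v // v ∈ cpt C o}) :
    (blk (sb C o) c v).map (Function.Embedding.subtype _) = blk C c.1 v.1 := by
  ext y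
  rw [mem_map]
  constructor
  · rintro ⟨z, hz, rfl⟩
    rw [FIX.mem_blk] at hz ⊢
    exact (reach_del C o c v z).1 hz
  · intro hy
    rw [FIX.mem_blk] at hy
    have hyo : y ∈ cpt C o := by
      rw [mem_cpt]
      have hv := v.2
      rw [mem_cpt] at hv
      exact hv.trans (hy.mono (del_le C c.1))
    refine ⟨⟨y, hyo⟩, ?_, rfl⟩
    rw [FIX.mem_blk]
    exact (reach_del C o c v ⟨y, hyo⟩).2 hy

theorem card_blk (C : SimpleGraph α) (o : α) (c v : {v // v ∈ cpt C o}) :
    (blk (sb C o) c v).card = (blk C c.1 v.1).card := by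
  rw [← map_blk C o c v, card_map]

theorem card_sb (C : SimpleGraph α) (o : α) :
    Fintype.card {v // v ∈ cpt C o} = (cpt C o).card := Fintype.card_coe _

theorem mem_iff (C : SimpleGraph α) (o : α) (c v : {v // v ∈ cpt C o}) :
    v.1 ∈ Td C c.1 ↔ v ∈ TRB.Tc (sb C o) c := by
  rw [mem_Td, mem_Tc, card_blk, card_sb, cpt_eq C c.2, Subtype.ext_iff]
  exact ⟨fun h => h.2, fun h => ⟨v.2, h⟩⟩

theorem map_Tc (C : SimpleGraph α) (o : α) (c : {v // v ∈ cpt C o}) :
    (TRB.Tc (sb C o) c).map (Function.Embedding.subtype _) = Td C c.1 := by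
  ext y
  rw [mem_map]
  constructor
  · rintro ⟨z, hz, rfl⟩
    exact (mem_iff C o c z).2 hz
  · intro hy
    have hyo : y ∈ cpt C o := by
      have := ((mem_Td C c.1 y).1 hy).1
      rwa [cpt_eq C c.2] at this
    exact ⟨⟨y, hyo⟩, (mem_iff C o c ⟨y, hyo⟩).1 hy, rfl⟩

theorem cen_iff (C : SimpleGraph α) (o : α) (b : {v // v ∈ cpt C o}) :
    Cen C b.1 ↔ b ∈ TRB.KK (sb C o) := by
  rw [mem_KK]
  constructor
  · intro h c hc hb
    exact h c.1 (fun e => hc (Subtype.ext e)) ((mem_iff C o c b).2 hb)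
  · intro h c hc hb
    have hco : c ∈ cpt C o := by
      have h1 := ((mem_Td C c b.1).1 hb).1
      have h2 := b.2
      rw [mem_cpt] at h1 h2 ⊢
      exact h2.trans h1.symm
    exact h ⟨c, hco⟩ (fun e => hc (congrArg Subtype.val e)) ((mem_iff C o ⟨c, hco⟩ b).1 hb)

end

end SUB

open SUB in
theorem t_SUB : TRB.S_CE1 → TRB.S_CE2 → TRB.S_CE3 → TRB.S_CE4 → S_SUB := by
  intro h1 _ h3 h4 α _ _ C o
  have hconn := conn C o
  by_cases hN : TRB.NoC (sb C o)
  · right
    obtain ⟨hc1, -, -⟩ := h1 _ (sb C o) hN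
    have hcen := h3 _ (sb C o) hconn hN
    refine ⟨?_, ?_, ?_, ?_⟩
    · intro c hc
      have := hc1 ⟨c, hc⟩
      rw [card_sb] at this
      rw [← map_Tc C o ⟨c, hc⟩, card_map]
      exact this
    · intro v hv
      obtain ⟨b, hb, hvb⟩ := hcen.cover ⟨v, hv⟩
      exact ⟨b.1, b.2, (cen_iff C o b).2 hb, (mem_iff C o b ⟨v, hv⟩).2 hvb⟩
    · intro b hb b' hb' hcb hcb' hne
      have := hcen.disj ⟨b, hb⟩ ((cen_iff C o ⟨b, hb⟩).1 hcb) ⟨b', hb'⟩
        ((cen_iff C o ⟨b', hb'⟩).1 hcb') (fun e => hne (congrArg Subtype.val e))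
      rw [← map_Tc C o ⟨b, hb⟩, ← map_Tc C o ⟨b', hb'⟩]
      exact (disjoint_map _).2 this
    · intro X hX hX3 x hx
      have hXm : (TRB.KK (sb C o)).map (Function.Embedding.subtype _) = X := by
        ext y
        rw [mem_map, hX]
        constructor
        · rintro ⟨z, hz, rfl⟩
          exact ⟨z.2, (cen_iff C o z).2 hz⟩
        · rintro ⟨hy, hy'⟩
          exact ⟨⟨y, hy⟩, (cen_iff C o ⟨y, hy⟩).1 hy', rfl⟩
      have hcard : 3 ≤ (TRB.KK (sb C o)).card := by
        rw [← card_map (Function.Embedding.subtype _), hXm]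
        exact hX3
      obtain ⟨hxo, hxc⟩ := (hX x).1 hx
      have hK := h4 _ (sb C o) hconn hN hcard ⟨x, hxo⟩ ((cen_iff C o ⟨x, hxo⟩).1 hxc)
      have hmem : ∀ v : {v // v ∈ cpt C o}, v ∈ TRB.KK (sb C o) ↔ v.1 ∈ X := by
        intro v
        rw [hX, cen_iff C o v]
        exact ⟨fun h => ⟨v.2, h⟩, fun h => h.2⟩
      let e : (sb C o).induce {v | v ∈ TRB.KK (sb C o) ∧ v ≠ ⟨x, hxo⟩} ≃g
          C.induce {v | v ∈ X ∧ v ≠ x} :=
        { toFun := fun v => ⟨v.1.1, (hmem v.1).1 v.2.1, fun e => v.2.2 (Subtype.ext e)⟩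
          invFun := fun v => ⟨⟨v.1, ((hX v.1).1 v.2.1).1⟩, (hmem ⟨v.1, ((hX v.1).1 v.2.1).1⟩).2 v.2.1,
            fun e => v.2.2 (congrArg Subtype.val e)⟩
          left_inv := fun _ => rfl
          right_inv := fun _ => rfl
          map_rel_iff' := Iff.rfl }
      exact e.connected_iff.1 hK
  · left
    unfold TRB.NoC at hN
    push Not at hN
    obtain ⟨c, hc⟩ := hN
    refine ⟨c.1, c.2, ?_, ?_⟩
    · rw [cen_iff C o c, mem_KK]
      intro c' hc' hcc'
      rw [mem_Tc] at hcc'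
      have h2 := hc c' hc'
      rcases hcc' with h | h
      · exact hc' h.symm
      · have hsub : (blk (sb C o) c c')ᶜ ⊆ blk (sb C o) c' c := by
          intro y hy
          rw [mem_compl] at hy
          rw [FIX.mem_blk] at hy ⊢
          have hn : ¬ (del (sb C o) c).Reachable y c' := fun e => hy e.symm
          obtain ⟨p⟩ := hconn.preconnected y c
          exact (FIX.key (sb C o) c c' hc' p rfl hn).symm
        have h5 := card_le_card hsub
        rw [card_compl] at h5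
        omega
    · intro v hv hvc
      have := hc ⟨v, hv⟩ (fun e => hvc (congrArg Subtype.val e))
      rw [card_blk, card_sb] at this
      exact this

end Pool.Agent.TRD
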