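import Pool.Agent.TRD.St
import Pool.Agent.TRB.MMIS

/-!
# TRD, module TW0 (helper87): two large branches, without the covering condition

Copy of the modules CRD, EXS, KAP, TWO of TRB with `Central0` in place of `Central`.
-/

set_option autoImplicit false

namespace Pool.Agent.TRD

open Finset Pool.Agent.Lib_helper61.SwitchBasic Pool.Agent.TRC Pool.Agent.NTW
open Pool.Agent.TRB (kap AllRec S_MIS t_MIS)

namespace TW0

/-- `TRB.S_CRD` with `Central0`. -/
def S_CRD : Prop :=
  ∀ (α : Type) [Fintype α] [DecidableEq α] (C : SimpleGraph α) (K : Finset α) (T : α → Finset α),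
    Central0 C K T → (∀ σ, IsClassAut C σ → IsAut C σ) → ∀ (t t' : Finset α), ∀ b ∈ K,
    4 * K.card < (T b).card → ∃ k ≤ ((T b).erase b).card,
      ∀ S, (Nonempty (sw C S ≃g sw C t) ∨ Nonempty (sw C S ≃g sw C t')) →
        (S ∩ (T b).erase b).card ≠ k

/-- `TRB.S_EXS` with `Central0`. -/
def S_EXS : Prop :=
  ∀ (α : Type) [Fintype α] [DecidableEq α] (C : SimpleGraph α) (K : Finset α) (T : α → Finset α),
    Central0 C K T → (∀ σ, IsClassAut C σ → IsAut C σ) → ∀ (t t' : Finset α),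
    SameDeck (sw C t) (sw C t') → ¬ Nonempty (sw C t ≃g sw C t') → ∀ b ∈ K,
    4 * K.card < (T b).card →
    (∀ S, Nonempty (sw C S ≃g sw C t) → ∃ S', Nonempty (sw C S' ≃g sw C t') ∧
      S' \ (T b).erase b = S \ (T b).erase b) ∧
    (∀ S', Nonempty (sw C S' ≃g sw C t') → ∃ S, Nonempty (sw C S ≃g sw C t) ∧
      S \ (T b).erase b = S' \ (T b).erase b)

/-- `TRB.S_KAP` with `Central0`. -/
def S_KAP : Prop :=
  ∀ (α : Type) [Fintype α] [DecidableEq α] (C : SimpleGraph α) (K : Finset α) (T : α → Finset α),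
    Central0 C K T →
    (∀ s, IsAut C s → ∀ S, ∀ b ∈ K, kap C T (im s S) (s b) = kap C T S b) ∧
    (∀ S, ∀ b ∈ K, kap C T Sᶜ b = kap C T S b) ∧
    (∀ S S', ∀ b ∈ K, S' \ (T b).erase b = S \ (T b).erase b → kap C T S b = kap C T S' b →
      Nonempty (sw C S ≃g sw C S'))

namespace CRD

theorem card_im {α : Type} [DecidableEq α] (s : Equiv.Perm α) (S : Finset α) :
    (im s S).card = S.card := by
  unfold im
  exact Finset.card_map _

/-- the trace on a branch is the image of the trace on another branch -/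
theorem trace {α : Type} [Fintype α] [DecidableEq α] {C : SimpleGraph α} {K : Finset α}
    {T : α → Finset α} (hC : Central0 C K T) (t : Finset α) {s : Equiv.Perm α} (hs : IsAut C s)
    {b : α} (hb : b ∈ K) : ∃ b' ∈ K,
      (im s t ∩ (T b).erase b).card = (t ∩ (T b').erase b').card := by
  have h0 : s (s⁻¹ b) = b := s.apply_symm_apply b
  have hb' : s⁻¹ b ∈ K := by
    have := hC.invK s hs (s⁻¹ b)
    rw [h0] at this
    exact this.1 hb
  refine ⟨s⁻¹ b, hb', ?_⟩
  have hT := hC.invT s hs _ hb'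
  rw [h0] at hT
  rw [← card_im s (t ∩ (T (s⁻¹ b)).erase (s⁻¹ b))]
  congr 1
  ext x
  rw [mem_im, Finset.mem_inter, Finset.mem_inter, Finset.mem_erase, Finset.mem_erase, mem_im,
    ← hT, mem_im]
  have h1 : s⁻¹ x ≠ s⁻¹ b ↔ x ≠ b := (s⁻¹).injective.ne_iff
  rw [h1]

end CRD

theorem t_CRD : S_CRD := by
  classical
  intro α _ _ C K T hC hA t t' b hb hcard
  set X := (T b).erase b with hX
  have hXc : X.card + 1 = (T b).card := Finset.card_erase_add_one (hC.root b hb)
  set V : Finset ℕ := (K.image fun b' => (t ∩ (T b').erase b').card) ∪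
    (K.image fun b' => X.card - (t ∩ (T b').erase b').card) ∪
    ((K.image fun b' => (t' ∩ (T b').erase b').card) ∪
    (K.image fun b' => X.card - (t' ∩ (T b').erase b').card)) with hV
  have hVc : V.card ≤ 4 * K.card := by
    refine (Finset.card_union_le _ _).trans ?_
    have h1 := Finset.card_union_le (K.image fun b' => (t ∩ (T b').erase b').card)
      (K.image fun b' => X.card - (t ∩ (T b').erase b').card)
    have h2 := Finset.card_union_le (K.image fun b' => (t' ∩ (T b').erase b').card)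
      (K.image fun b' => X.card - (t' ∩ (T b').erase b').card)
    have e1 : (K.image fun b' => (t ∩ (T b').erase b').card).card ≤ K.card :=
      Finset.card_image_le
    have e2 : (K.image fun b' => X.card - (t ∩ (T b').erase b').card).card ≤ K.card :=
      Finset.card_image_le
    have e3 : (K.image fun b' => (t' ∩ (T b').erase b').card).card ≤ K.card :=
      Finset.card_image_le
    have e4 : (K.image fun b' => X.card - (t' ∩ (T b').erase b').card).card ≤ K.card :=
      Finset.card_image_le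
    omega
  obtain ⟨k, hk1, hk2⟩ := Finset.exists_mem_notMem_of_card_lt_card
    (s := V) (t := Finset.range (X.card + 1)) (by rw [Finset.card_range]; omega)
  refine ⟨k, by rw [Finset.mem_range] at hk1; omega, ?_⟩
  have key : ∀ (S q : Finset α), Nonempty (sw C S ≃g sw C q) → ∃ b' ∈ K,
      (S ∩ X).card = (q ∩ (T b').erase b').card ∨
      (S ∩ X).card = X.card - (q ∩ (T b').erase b').card := by
    intro S q h
    obtain ⟨s, hs, hS⟩ := (iso_iff hA S q).1 h
    obtain ⟨b', hb', htr⟩ := CRD.trace hC q (mem_AA.1 hs) hb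
    refine ⟨b', hb', ?_⟩
    rcases hS with hS | hS
    · left
      rw [← hS]
      exact htr
    · right
      have e : S ∩ X = X \ (im s q ∩ X) := by
        rw [hS]
        ext x
        simp only [Finset.mem_inter, Finset.mem_sdiff, Finset.mem_compl]
        tauto
      rw [e, Finset.card_sdiff_of_subset Finset.inter_subset_right, htr]
  intro S hS hcon
  apply hk2
  rw [hV, Finset.mem_union, Finset.mem_union, Finset.mem_union]
  rcases hS with hS | hS
  · obtain ⟨b', hb', h | h⟩ := key S t hS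
    · exact Or.inl (Or.inl (Finset.mem_image.2 ⟨b', hb', by rw [← h, hcon]⟩))
    · exact Or.inl (Or.inr (Finset.mem_image.2 ⟨b', hb', by rw [← h, hcon]⟩))
  · obtain ⟨b', hb', h | h⟩ := key S t' hS
    · exact Or.inr (Or.inl (Finset.mem_image.2 ⟨b', hb', by rw [← h, hcon]⟩))
    · exact Or.inr (Or.inr (Finset.mem_image.2 ⟨b', hb', by rw [← h, hcon]⟩))

namespace EXS

/-- Some term is negative if one is positive. -/
theorem core (h1 : S_MIS) {α : Type} [Fintype α] [DecidableEq α] (F : Finset α → ℚ)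
    (hF : ∀ S, ∑ i : α, F (symmDiff S {i}) = 0) {X Z₀ : Finset α} (hZ : Z₀ ⊆ X)
    (hv : ∀ S, S ∩ X = Z₀ → F S = 0) {S : Finset α} (hS : 0 < F S) :
    ∃ S', F S' < 0 ∧ S' \ X = S \ X := by
  have h2 := h1 α F hF X Z₀ hZ hv (S \ X) Finset.sdiff_disjoint
  by_contra hno
  push Not at hno
  have h3 : ∀ Z ∈ X.powerset, 0 ≤ F (Z ∪ S \ X) := by
    intro Z hZX
    by_contra hlt
    refine hno (Z ∪ S \ X) (not_le.1 hlt) ?_
    have hZX := Finset.mem_powerset.1 hZX
    ext x
    have h4 : x ∈ Z → x ∈ X := fun h => hZX h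
    simp only [Finset.mem_sdiff, Finset.mem_union]
    tauto
  have h5 : (S ∩ X) ∪ S \ X = S := by
    ext x
    simp only [Finset.mem_sdiff, Finset.mem_union, Finset.mem_inter]
    tauto
  have h6 : 0 < ∑ Z ∈ X.powerset, F (Z ∪ S \ X) := by
    refine Finset.sum_pos' h3 ⟨S ∩ X, Finset.mem_powerset.2 Finset.inter_subset_right, ?_⟩
    rw [h5]
    exact hS
  exact absurd h2 h6.ne'

end EXS

open EXS in
theorem t_EXS (h1 : S_MIS) (h2 : S_CRD) : S_EXS := by
  intro α _ _ C K T hC hA t t' hdeck hne b hb hbig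
  obtain ⟨k, hk, hcrd⟩ := h2 α C K T hC hA t t' b hb hbig
  obtain ⟨Z₀, hZ, hZk⟩ := Finset.exists_subset_card_eq hk
  obtain ⟨T₀, hT₀⟩ := exists_sw hdeck b
  have c1 : 0 < cnt (sw C t) (sw C t') := cnt_pos _ _ T₀ hT₀
  have c2 : 0 < cnt (sw C t) (sw C t) := by
    refine cnt_pos _ _ ∅ ?_
    rw [sw_empty]
    exact ⟨SimpleGraph.Iso.refl⟩
  -- the function
  obtain ⟨F, hF⟩ : ∃ F : Finset α → ℚ,
      F = fun S => ff (sw C t) (sw C t') (symmDiff t S) := ⟨_, rfl⟩
  have hval : ∀ S, F S = cnt (sw C t) (sw C t') * ind (sw C S) (sw C t) -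
      cnt (sw C t) (sw C t) * ind (sw C S) (sw C t') := by
    intro S
    rw [hF]
    show ff (sw C t) (sw C t') (symmDiff t S) = _
    unfold ff
    rw [sw_sw, symmDiff_symmDiff_cancel_left]
  have hsum : ∀ S, ∑ i : α, F (symmDiff S {i}) = 0 := by
    intro S
    rw [← sum_ff hdeck (symmDiff t S)]
    refine Finset.sum_congr rfl fun i _ => ?_
    rw [hF]
    show ff (sw C t) (sw C t') (symmDiff t (symmDiff S {i})) = _
    rw [symmDiff_assoc]
  have hexcl : ∀ S, Nonempty (sw C S ≃g sw C t) → ¬ Nonempty (sw C S ≃g sw C t') := by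
    rintro S ⟨φ⟩ ⟨ψ⟩
    exact hne ⟨φ.symm.trans ψ⟩
  have hvan : ∀ S, S ∩ (T b).erase b = Z₀ → F S = 0 := by
    intro S hS
    have h3 : ¬ Nonempty (sw C S ≃g sw C t) := by
      intro h
      refine hcrd S (Or.inl h) ?_
      rw [hS, hZk]
    have h4 : ¬ Nonempty (sw C S ≃g sw C t') := by
      intro h
      refine hcrd S (Or.inr h) ?_
      rw [hS, hZk]
    rw [hval, ind_of_not _ _ h3, ind_of_not _ _ h4]
    ring
  constructor
  · intro S hS
    have hpos : 0 < F S := by
      rw [hval, ind_of _ _ hS, ind_of_not _ _ (hexcl S hS)]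
      linarith
    obtain ⟨S', hneg, hS'⟩ := core h1 F hsum hZ hvan hpos
    refine ⟨S', ?_, hS'⟩
    by_contra hno
    rw [hval, ind_of_not _ _ hno] at hneg
    have h5 := mul_nonneg c1.le (ind_nonneg (sw C S') (sw C t))
    linarith
  · intro S' hS'
    have hno : ¬ Nonempty (sw C S' ≃g sw C t) := fun h => hexcl S' h hS'
    have hpos : 0 < -F S' := by
      rw [hval, ind_of _ _ hS', ind_of_not _ _ hno]
      linarith
    obtain ⟨S, hneg, hS⟩ := core h1 (fun S => -F S)
      (fun S => by rw [Finset.sum_neg_distrib, hsum, neg_zero]) hZ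
      (fun S h => by rw [hvan S h, neg_zero]) hpos
    refine ⟨S, ?_, hS⟩
    by_contra hno'
    have hneg' : -F S < 0 := hneg
    rw [hval, ind_of_not _ _ hno'] at hneg'
    have h5 := mul_nonneg c2.le (ind_nonneg (sw C S) (sw C t'))
    linarith

namespace KAP

variable {α : Type} [DecidableEq α]

theorem im_int (s : Equiv.Perm α) (X Y : Finset α) : im s X ∩ im s Y = im s (X ∩ Y) := by
  ext x
  rw [mem_inter, mem_im, mem_im, mem_im, mem_inter]

theorem im_sdf (s : Equiv.Perm α) (X Y : Finset α) : im s X \ im s Y = im s (X \ Y) := by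
  ext x
  rw [mem_sdiff, mem_im, mem_im, mem_im, mem_sdiff]

/-- One inclusion of the first part. -/
theorem sub [Fintype α] {C : SimpleGraph α} {K : Finset α} {T : α → Finset α} (h : Central0 C K T)
    {s : Equiv.Perm α} (hs : IsAut C s) (S : Finset α) {b : α} (hb : b ∈ K) :
    kap C T (im s S) (s b) ⊆ kap C T S b := by
  rintro p ⟨r, hr, h2, h3⟩
  have e1 : im s S ∩ T (s b) = im s (S ∩ T b) := by rw [← h.invT s hs b hb, im_int]
  have e2 : T (s b) \ im s S = im s (T b \ S) := by rw [← h.invT s hs b hb, im_sdf]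
  refine ⟨r * s, mem_AA.1 (mul_AA (mem_AA.2 hr) (mem_AA.2 hs)), h2, ?_⟩
  rw [e1, e2] at h3
  rw [im_mul, im_mul]
  exact h3

end KAP

open KAP in
theorem t_KAP : S_KAP := by
  intro α _ _ C K T h
  refine ⟨?_, ?_, ?_⟩
  · intro s hs S b hb
    apply Set.Subset.antisymm (sub h hs S hb)
    have hs' : IsAut C s⁻¹ := mem_AA.1 (inv_AA (mem_AA.2 hs))
    have hsb : s b ∈ K := (h.invK s hs b).2 hb
    have h1 := sub h hs' (im s S) hsb
    have e0 : s⁻¹ (s b) = b := by simp
    rw [← im_mul, inv_mul_cancel, im_one, e0] at h1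
    exact h1
  · intro S b _
    have e1 : Sᶜ ∩ T b = T b \ S := by
      ext x
      rw [mem_inter, mem_compl, mem_sdiff]
      tauto
    have e2 : T b \ Sᶜ = S ∩ T b := by
      ext x
      rw [mem_inter, mem_sdiff, mem_compl, not_not]
      tauto
    unfold kap
    rw [e1, e2]
    ext p
    constructor
    · rintro ⟨s, h1, h2, h3⟩
      exact ⟨s, h1, h2, h3.symm⟩
    · rintro ⟨s, h1, h2, h3⟩
      exact ⟨s, h1, h2, h3.symm⟩
  · intro S S' b hb hSS hk
    have hout : ∀ x, x ∉ (T b).erase b → (x ∈ S ↔ x ∈ S') := by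
      intro x hx
      have h1 := Finset.ext_iff.1 hSS x
      rw [mem_sdiff, mem_sdiff] at h1
      tauto
    have hbb : b ∈ S ↔ b ∈ S' := hout b (by simp)
    have hbT : b ∈ T b := h.root b hb
    have hmem : ((S ∩ T b, b) : Finset α × α) ∈ kap C T S b :=
      ⟨1, mem_AA.1 (one_AA C), rfl, Or.inl (im_one _).symm⟩
    rw [hk] at hmem
    obtain ⟨s, hs, hsb, hcase⟩ := hmem
    have hsb' : s b = b := hsb.symm
    have hsib : s⁻¹ b = b := by
      rw [Equiv.Perm.inv_eq_iff_eq]
      exact hsb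
    rcases hcase with hc | hc
    · obtain ⟨s', hs', hin, hoff⟩ := h.loc s hs b hb hsb'
      have hTb : im s (T b) = T b := by rw [h.invT s hs b hb, hsb']
      have him : im s' S' = S := by
        ext x
        rw [mem_im]
        by_cases hx : x ∈ T b
        · have h1 : s⁻¹ x ∈ T b := by
            rw [← hTb, mem_im] at hx
            exact hx
          have h2 : s'⁻¹ x = s⁻¹ x := by
            rw [Equiv.Perm.inv_eq_iff_eq, hin _ h1]
            simp
          have h3 := Finset.ext_iff.1 hc x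
          simp only [mem_inter, mem_im] at h3
          rw [h2]
          tauto
        · have h2 : s'⁻¹ x = x := by
            rw [Equiv.Perm.inv_eq_iff_eq]
            exact (hoff x hx).symm
          rw [h2]
          exact (hout x (fun h3 => hx (mem_of_mem_erase h3))).symm
      obtain ⟨φ⟩ := iso_im (mem_AA.2 hs') S'
      rw [him] at φ
      exact ⟨φ.symm⟩
    · exfalso
      have h3 := Finset.ext_iff.1 hc b
      simp only [mem_inter, mem_im, mem_sdiff] at h3
      rw [hsib] at h3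
      tauto

namespace TWO

variable {α : Type} [Fintype α] [DecidableEq α] {C : SimpleGraph α} {K : Finset α}
  {T : α → Finset α}

open Classical in
/-- The number of branches with the class `k` of the trace of `S`. -/
noncomputable def N (C : SimpleGraph α) (K : Finset α) (T : α → Finset α) (S : Finset α)
    (k : Set (Finset α × α)) : ℕ := (K.filter fun b => kap C T S b = k).card

omit [Fintype α] in
theorem kap_congr (hC : Central0 C K T) {S S' : Finset α} {b b' : α} (hb : b ∈ K) (hb' : b' ∈ K)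
    (hne : b' ≠ b) (h : S' \ (T b).erase b = S \ (T b).erase b) :
    kap C T S b' = kap C T S' b' := by
  have hd := hC.disj b' hb' b hb hne
  have hx : ∀ x ∈ T b', (x ∈ S ↔ x ∈ S') := by
    intro x hx
    have h1 : x ∉ (T b).erase b := fun g => disjoint_left.1 hd hx (mem_of_mem_erase g)
    have h2 : x ∈ S' \ (T b).erase b ↔ x ∈ S \ (T b).erase b := by rw [h]
    rw [mem_sdiff, mem_sdiff] at h2
    tauto
  have e1 : S ∩ T b' = S' ∩ T b' := by
    ext x
    rw [mem_inter, mem_inter]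
    constructor
    · rintro ⟨h1, h2⟩
      exact ⟨(hx x h2).1 h1, h2⟩
    · rintro ⟨h1, h2⟩
      exact ⟨(hx x h2).2 h1, h2⟩
  have e2 : T b' \ S = T b' \ S' := by
    ext x
    rw [mem_sdiff, mem_sdiff]
    constructor
    · rintro ⟨h1, h2⟩
      exact ⟨h1, fun g => h2 ((hx x h1).2 g)⟩
    · rintro ⟨h1, h2⟩
      exact ⟨h1, fun g => h2 ((hx x h1).1 g)⟩
  unfold kap
  rw [e1, e2]

omit [Fintype α] in
theorem N_lt (hC : Central0 C K T) {S S' : Finset α} {b : α} (hb : b ∈ K)
    (h : S' \ (T b).erase b = S \ (T b).erase b) (hne : kap C T S b ≠ kap C T S' b) :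
    N C K T S' (kap C T S b) < N C K T S (kap C T S b) := by
  unfold N
  apply card_lt_card
  rw [ssubset_iff_of_subset]
  · refine ⟨b, ?_, ?_⟩
    · rw [mem_filter]
      exact ⟨hb, rfl⟩
    · rw [mem_filter]
      exact fun g => hne g.2.symm
  · intro b' hb'
    rw [mem_filter] at hb' ⊢
    refine ⟨hb'.1, ?_⟩
    have h1 : b' ≠ b := by
      rintro rfl
      exact hne hb'.2.symm
    rw [kap_congr hC hb hb'.1 h1 h]
    exact hb'.2

omit [Fintype α] in
theorem N_im (hC : Central0 C K T)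
    (h1 : ∀ s, IsAut C s → ∀ S, ∀ b ∈ K, kap C T (im s S) (s b) = kap C T S b)
    {s : Equiv.Perm α} (hs : IsAut C s) (S : Finset α) (k : Set (Finset α × α)) :
    N C K T (im s S) k = N C K T S k := by
  unfold N
  refine card_nbij' (fun b => s⁻¹ b) (fun b => s b) ?_ ?_ ?_ ?_
  · intro b hb
    simp only [coe_filter, Set.mem_ofPred_eq] at hb ⊢
    have h0 : s (s⁻¹ b) = b := by simp
    have h2 : s⁻¹ b ∈ K := by
      rw [← hC.invK s hs, h0]
      exact hb.1
    have h3 := h1 s hs S (s⁻¹ b) h2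
    rw [h0] at h3
    exact ⟨h2, h3.symm.trans hb.2⟩
  · intro b hb
    simp only [coe_filter, Set.mem_ofPred_eq] at hb ⊢
    exact ⟨(hC.invK s hs b).2 hb.1, (h1 s hs S b hb.1).trans hb.2⟩
  · intro b _
    simp
  · intro b _
    simp

theorem N_compl (h2 : ∀ S, ∀ b ∈ K, kap C T Sᶜ b = kap C T S b) (S : Finset α)
    (k : Set (Finset α × α)) : N C K T Sᶜ k = N C K T S k := by
  unfold N
  congr 1
  refine filter_congr fun b hb => ?_
  rw [h2 S b hb]

theorem N_iso (hC : Central0 C K T) (hA : ∀ σ, IsClassAut C σ → IsAut C σ)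
    (h1 : ∀ s, IsAut C s → ∀ S, ∀ b ∈ K, kap C T (im s S) (s b) = kap C T S b)
    (h2 : ∀ S, ∀ b ∈ K, kap C T Sᶜ b = kap C T S b) {S t : Finset α}
    (h : Nonempty (sw C S ≃g sw C t)) (k : Set (Finset α × α)) :
    N C K T S k = N C K T t k := by
  rw [iso_iff hA] at h
  obtain ⟨s, hs, h | h⟩ := h
  · rw [← h]
    exact N_im hC h1 (mem_AA.1 hs) t k
  · rw [← N_compl h2 S k, ← h]
    exact N_im hC h1 (mem_AA.1 hs) t k

end TWO

end TW0

theorem t_TW0 : S_TW0 := by
  have hE : TW0.S_EXS := TW0.t_EXS t_MIS TW0.t_CRD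
  have hK : TW0.S_KAP := TW0.t_KAP
  intro α _ _ C K T hC hA b₁ hb₁ b₂ hb₂ hb h41 h42 t t' hdeck
  by_contra hne
  obtain ⟨k1, k2, k3⟩ := hK α C K T hC
  have kne : ∀ S S' : Finset α, Nonempty (sw C S ≃g sw C t) → Nonempty (sw C S' ≃g sw C t') →
      ∀ b ∈ K, S' \ (T b).erase b = S \ (T b).erase b → kap C T S b ≠ kap C T S' b := by
    rintro S S' ⟨e1⟩ ⟨e2⟩ b hbK h h'
    obtain ⟨e3⟩ := k3 S S' b hbK h h'
    exact hne ⟨e1.symm.trans (e3.trans e2)⟩
  -- claim A
  have clA : ∀ S : Finset α, Nonempty (sw C S ≃g sw C t) → ∀ b ∈ K, 4 * K.card < (T b).card →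
      TW0.TWO.N C K T t' (kap C T S b) < TW0.TWO.N C K T t (kap C T S b) := by
    intro S hS b hbK hlarge
    obtain ⟨S', hS', h⟩ := (hE α C K T hC hA t t' hdeck hne b hbK hlarge).1 S hS
    have h1 := TW0.TWO.N_lt hC hbK h (kne S S' hS hS' b hbK h)
    rw [TW0.TWO.N_iso hC hA k1 k2 hS', TW0.TWO.N_iso hC hA k1 k2 hS] at h1
    exact h1
  -- claim B
  have clB : ∀ S' : Finset α, Nonempty (sw C S' ≃g sw C t') → ∀ b ∈ K, 4 * K.card < (T b).card →
      TW0.TWO.N C K T t (kap C T S' b) < TW0.TWO.N C K T t' (kap C T S' b) := by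
    intro S' hS' b hbK hlarge
    obtain ⟨S, hS, h⟩ := (hE α C K T hC hA t t' hdeck hne b hbK hlarge).2 S' hS'
    have h1 := TW0.TWO.N_lt hC hbK h (kne S S' hS hS' b hbK h.symm).symm
    rw [TW0.TWO.N_iso hC hA k1 k2 hS', TW0.TWO.N_iso hC hA k1 k2 hS] at h1
    exact h1
  have ht : Nonempty (sw C t ≃g sw C t) := ⟨SimpleGraph.Iso.refl⟩
  obtain ⟨S', hS', h⟩ := (hE α C K T hC hA t t' hdeck hne b₁ hb₁ h41).1 t ht
  have h1 := TW0.TWO.kap_congr hC hb₁ hb₂ hb.symm h
  have h2 := clA t ht b₂ hb₂ h42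
  have h3 := clB S' hS' b₂ hb₂ h42
  rw [← h1] at h3
  exact lt_asymm h2 h3

end Pool.Agent.TRD
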