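import Pool.Agent.TRD.Orb
import Pool.Agent.TRD.MCEO
import Pool.Agent.TRD.MSUB
import Pool.Agent.TRD.MTW0
import Pool.Agent.TRB.MCE4

/-!
# TRD: the cut vertex theorem, connected or not (helper94)
-/

set_option autoImplicit false

namespace Pool.Agent.TRD

open Finset Pool.Agent.Lib_helper61.SwitchBasic Pool.Agent.Lib_helper61.SwMain Pool.Agent.TRC

section

variable {α : Type} [Fintype α] [DecidableEq α]

theorem card_Td (C : SimpleGraph α) (b : α) {s : Equiv.Perm α} (hs : IsAut C s) :
    (Td C (s b)).card = (Td C b).card := by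
  symm
  apply Finset.card_bij (fun y _ => s y)
  · intro y hy
    exact (CEO.Td_perm hs b y).2 hy
  · intro a _ c _ h
    exact s.injective h
  · intro y hy
    refine ⟨s⁻¹ y, ?_, s.apply_symm_apply y⟩
    rw [← CEO.Td_perm hs b (s⁻¹ y), show s (s⁻¹ y) = y from s.apply_symm_apply y]
    exact hy

theorem im_Td (C : SimpleGraph α) (c : α) {s : Equiv.Perm α} (hs : IsAut C s) :
    im s (Td C c) = Td C (s c) := by
  ext y
  have e : s (s⁻¹ y) = y := s.apply_symm_apply y
  rw [mem_im, ← CEO.Td_perm hs c (s⁻¹ y), e]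

omit [DecidableEq α] in
theorem self_cpt (C : SimpleGraph α) (c : α) : c ∈ cpt C c :=
  CEO.mem_cpt.2 (SimpleGraph.Reachable.refl c)

omit [DecidableEq α] in
theorem self_Td (C : SimpleGraph α) (b : α) : b ∈ Td C b :=
  CEO.mem_Td.2 ⟨self_cpt C b, Or.inl rfl⟩

theorem loc_Td (C : SimpleGraph α) (b : α) {s : Equiv.Perm α} (hs : IsAut C s) (hsb : s b = b) :
    ∃ s', IsAut C s' ∧ (∀ v ∈ Td C b, s' v = s v) ∧ ∀ v, v ∉ Td C b → s' v = v := by
  have hT : ∀ v, s v ∈ Td C b ↔ v ∈ Td C b := by
    intro v
    have := CEO.Td_perm hs b v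
    rwa [hsb] at this
  have hT' : ∀ v, s⁻¹ v ∈ Td C b ↔ v ∈ Td C b := by
    intro v
    have e : s (s⁻¹ v) = v := s.apply_symm_apply v
    rw [← hT (s⁻¹ v), e]
  have hsne : ∀ v, v ≠ b → s v ≠ b := fun v hv e => hv (s.injective (e.trans hsb.symm))
  let s' : Equiv.Perm α :=
    { toFun := fun v => if v ∈ Td C b then s v else v
      invFun := fun v => if v ∈ Td C b then s⁻¹ v else v
      left_inv := by
        intro v
        by_cases hv : v ∈ Td C b
        · have h' := (hT v).2 hv
          simp [hv, h']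
        · simp [hv]
      right_inv := by
        intro v
        by_cases hv : v ∈ Td C b
        · have h' := (hT' v).2 hv
          simp only [hv, if_true, h']
          simp
        · simp [hv] }
  have e1 : ∀ v ∈ Td C b, s' v = s v := fun v hv => if_pos hv
  have e2 : ∀ v, v ∉ Td C b → s' v = v := fun v hv => if_neg hv
  refine ⟨s', ?_, e1, e2⟩
  have key : ∀ u v, u ∈ Td C b → v ∉ Td C b → (C.Adj (s u) v ↔ C.Adj u v) := by
    intro u v hu hv
    by_cases hub : u = b
    · rw [hub, hsb]
    · constructor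
      · intro h
        exact absurd (CEO.stay ((hT u).2 hu) (hsne u hub) h) hv
      · intro h
        exact absurd (CEO.stay hu hub h) hv
  intro u v
  by_cases hu : u ∈ Td C b
  · by_cases hv : v ∈ Td C b
    · rw [e1 u hu, e1 v hv]
      exact hs u v
    · rw [e1 u hu, e2 v hv]
      exact key u v hu hv
  · by_cases hv : v ∈ Td C b
    · rw [e2 u hu, e1 v hv, C.adj_comm, key v u hv hu, C.adj_comm]
    · rw [e2 u hu, e2 v hv]

omit [DecidableEq α] in
/-- Branches in different components are disjoint. -/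
theorem disj_diff (C : SimpleGraph α) {b b' : α} (h : b' ∉ cpt C b) :
    Disjoint (Td C b) (Td C b') := by
  rw [disjoint_left]
  intro v hv hv'
  apply h
  have h1 := (CEO.mem_Td.1 hv).1
  have h2 := (CEO.mem_Td.1 hv').1
  rw [CEO.mem_cpt] at h1 h2 ⊢
  exact h1.trans h2.symm

/-- Two branches of the same size in the same component. -/
theorem disj_same (C : SimpleGraph α) {b b' : α} (hN : TRB.NoC (SUB.sb C b))
    (hb' : b' ∈ cpt C b) (hne : b ≠ b') (hcard : (Td C b').card = (Td C b).card) :
    Disjoint (Td C b) (Td C b') := by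
  have hconn := SUB.conn C b
  have e1 := SUB.map_Tc C b ⟨b, self_cpt C b⟩
  have e2 := SUB.map_Tc C b ⟨b', hb'⟩
  have hne' : (⟨b, self_cpt C b⟩ : {v // v ∈ cpt C b}) ≠ ⟨b', hb'⟩ :=
    fun e => hne (congrArg Subtype.val e)
  have hc : (TRB.Tc (SUB.sb C b) ⟨b', hb'⟩).card =
      (TRB.Tc (SUB.sb C b) ⟨b, self_cpt C b⟩).card := by
    rw [← card_map (Function.Embedding.subtype _), e2,
      ← card_map (Function.Embedding.subtype _), e1]
    exact hcard
  have n1 := not_mem_Tc (SUB.sb C b) hconn hN hne' hc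
  have n2 := not_mem_Tc (SUB.sb C b) hconn hN hne'.symm hc.symm
  have h := disj_Tc (SUB.sb C b) hconn hN n1 n2
  rw [← e1, ← e2]
  exact (disjoint_map _).2 h

theorem orb_card (C : SimpleGraph α) (b : α) : ∀ x ∈ orb C b, (Td C x).card = (Td C b).card := by
  intro x hx
  obtain ⟨s, hs, rfl⟩ := mem_orb.1 hx
  exact card_Td C b hs

theorem inv_aut {C : SimpleGraph α} {s : Equiv.Perm α} (hs : IsAut C s) : IsAut C s⁻¹ :=
  mem_AA.1 (inv_AA (mem_AA.2 hs))

theorem mul_aut {C : SimpleGraph α} {s r : Equiv.Perm α} (hs : IsAut C s) (hr : IsAut C r) :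
    IsAut C (s * r) := mem_AA.1 (mul_AA (mem_AA.2 hs) (mem_AA.2 hr))

/-- An orbit is a centre if two elements `b`, `s b` of the same component have disjoint
branches. -/
theorem central_of (C : SimpleGraph α) (b : α)
    (h : ∀ s, IsAut C s → s b ∈ cpt C b → s b ≠ b → Disjoint (Td C b) (Td C (s b))) :
    Central0 C (orb C b) (Td C) := by
  refine ⟨fun b _ => self_Td C b, ?_, fun s hs x => orb_perm hs x, fun s hs c _ => im_Td C c hs,
    fun s hs b _ hsb => loc_Td C b hs hsb⟩
  intro x hx y hy hne
  by_cases hxy : y ∈ cpt C x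
  · obtain ⟨s, hs, rfl⟩ := mem_orb.1 hx
    obtain ⟨r, hr, rfl⟩ := mem_orb.1 hy
    have e : s (s⁻¹ (r b)) = r b := s.apply_symm_apply _
    have h1 : (s⁻¹ * r) b ∈ cpt C b := by
      rw [Equiv.Perm.mul_apply, ← CEO.cpt_perm hs, e]
      exact hxy
    have h2 : (s⁻¹ * r) b ≠ b := by
      intro g
      apply hne
      rw [Equiv.Perm.mul_apply] at g
      rw [← e, g]
    have h3 := h (s⁻¹ * r) (mul_aut (inv_aut hs) hr) h1 h2
    rw [disjoint_left] at h3 ⊢
    intro v hv hv'
    have e' : s (s⁻¹ v) = v := s.apply_symm_apply v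
    refine h3 (a := s⁻¹ v) ?_ ?_
    · rw [← CEO.Td_perm hs, e']
      exact hv
    · rw [← CEO.Td_perm hs, e', Equiv.Perm.mul_apply, e]
      exact hv'
  · exact disj_diff C hxy

/-- The last step. -/
theorem core (C : SimpleGraph α) (hA : ∀ σ, IsClassAut C σ → IsAut C σ) (c : α)
    (hC : Central0 C (orb C c) (Td C)) (hbig : 4 * (orb C c).card < (Td C c).card)
    (hR : 4 ≤ ((Td C c)ᶜ).card ∨ ∀ x, x ≠ c → 2 * (blk C c x).card < Fintype.card α) :
    TRC.AllRec C := by
  have hn1 : 0 < (orb C c).card := card_pos.2 ⟨c, self_orb C c⟩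
  have hp5 : 4 < Fintype.card α := by
    have := card_le_univ (Td C c)
    omega
  by_cases hfix : ∀ s, IsAut C s → s c = c
  · rcases hR with hR | hR
    · have hbT : c ∈ Td C c := self_Td C c
      have hT' : ∀ s, IsAut C s → ∀ v, s v ∈ Td C c ↔ v ∈ Td C c := by
        intro s hs v
        have := CEO.Td_perm hs c v
        rwa [hfix s hs] at this
      have hXc : ((Td C c).erase c).card + 1 = (Td C c).card := card_erase_add_one hbT
      refine fixed_vertex C hA c hfix ((Td C c).erase c) (Td C c)ᶜ (notMem_erase c _)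
        (fun h => (mem_compl.1 h) hbT) ?_ ?_ ?_ (by omega) hR ?_
      · rw [disjoint_left]
        intro v hv hv'
        exact (mem_compl.1 hv') (mem_of_mem_erase hv)
      · intro s hs v
        rw [mem_erase, mem_erase, hT' s hs v]
        have : s v ≠ c ↔ v ≠ c := by
          constructor
          · intro h e
            exact h (by rw [e, hfix s hs])
          · intro h e
            exact h (s.injective (by rw [e, hfix s hs]))
        rw [this]
      · intro s hs v
        rw [mem_compl, mem_compl, hT' s hs v]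
      · intro s hs
        obtain ⟨s', hs', hin, hout⟩ := loc_Td C c hs (hfix s hs)
        refine ⟨s', hs', fun v hv => hin v (mem_of_mem_erase hv), ?_⟩
        intro v hv
        by_cases hvb : v = c
        · rw [hvb, hin c hbT, hfix s hs]
        · exact hout v fun h => hv (mem_erase.2 ⟨hvb, h⟩)
    · exact central_vertex (by omega) C c hR fun σ hσ => hfix σ (hA σ hσ)
  · push Not at hfix
    obtain ⟨s, hs, hsb⟩ := hfix
    have hsb' : s c ∈ orb C c := mem_orb.2 ⟨s, hs, rfl⟩
    refine t_TW0 α C (orb C c) (Td C) hC hA c (self_orb C c) (s c) hsb' (Ne.symm hsb) hbig ?_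
    rw [card_Td C c hs]
    exact hbig

/-- Every vertex of the class is in one of two situations. -/
theorem dich (C : SimpleGraph α) (b : α) :
    (Central0 C (orb C b) (Td C) ∧ 2 * (Td C b).card ≤ (cpt C b).card) ∨
    ∃ c, Central0 C (orb C c) (Td C) ∧ Td C c = cpt C b ∧ (orb C c).card ≤ (orb C b).card ∧
      ∀ x ∈ cpt C b, x ≠ c → 2 * (blk C c x).card < (cpt C b).card := by
  by_cases hN : TRB.NoC (SUB.sb C b)
  · left
    constructor
    · refine central_of C b fun s hs h1 h2 => ?_
      exact disj_same C hN h1 (Ne.symm h2) (card_Td C b hs)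
    · obtain ⟨h1, -, -⟩ := TRB.t_CE1 _ (SUB.sb C b) hN
      have h2 := h1 ⟨b, self_cpt C b⟩
      rw [← card_map (Function.Embedding.subtype _), SUB.map_Tc C b ⟨b, self_cpt C b⟩,
        SUB.card_sb] at h2
      exact h2
  · right
    have hfirst : ∃ c ∈ cpt C b, Cen C c ∧
        ∀ v ∈ cpt C b, v ≠ c → 2 * (blk C c v).card < (cpt C b).card := by
      have g2 := TRB.t_CE2 TRB.t_CE1
      have g3 := TRB.t_CE3 TRB.t_CE1 g2
      rcases t_SUB TRB.t_CE1 g2 g3 (TRB.t_CE4 TRB.t_CE1 g3) α C b with h | ⟨h, -⟩
      · exact h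
      · exfalso
        unfold TRB.NoC at hN
        push Not at hN
        obtain ⟨c, hc⟩ := hN
        have h1 := h c.1 c.2
        have h2 : cpt C b ⊆ Td C c.1 := by
          intro v hv
          rw [CEO.mem_Td, SUB.cpt_eq C c.2]
          refine ⟨hv, ?_⟩
          by_cases hvc : v = c.1
          · exact Or.inl hvc
          · right
            have h3 := hc ⟨v, hv⟩ (fun e => hvc (congrArg Subtype.val e))
            rw [SUB.card_blk, SUB.card_sb] at h3
            exact h3
        have h3 := card_le_card h2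
        have h4 : 0 < (cpt C b).card := card_pos.2 ⟨b, self_cpt C b⟩
        omega
    obtain ⟨c, hcb, hcen, hcv⟩ := hfirst
    have hcpt : cpt C c = cpt C b := SUB.cpt_eq C hcb
    have hTd : Td C c = cpt C b := by
      ext v
      rw [CEO.mem_Td, hcpt]
      constructor
      · exact fun h => h.1
      · intro h
        refine ⟨h, ?_⟩
        by_cases hvc : v = c
        · exact Or.inl hvc
        · exact Or.inr (hcv v h hvc)
    -- an image of `c` in the same component is `c`
    have huniq : ∀ s, IsAut C s → s c ∈ cpt C c → s c = c := by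
      intro s hs hsc
      by_contra hne
      apply hcen (s c) hne
      have e : s (s⁻¹ c) = c := s.apply_symm_apply c
      have h1 : s⁻¹ c ∈ Td C c := by
        rw [hTd, ← hcpt, ← CEO.cpt_perm hs, e]
        rw [CEO.mem_cpt] at hsc ⊢
        exact hsc.symm
      have h2 := (CEO.Td_perm hs c (s⁻¹ c)).2 h1
      rwa [e] at h2
    refine ⟨c, ?_, hTd, ?_, hcv⟩
    · exact central_of C c fun s hs h1 h2 => absurd (huniq s hs h1) h2
    · -- the number of images
      have hex : ∀ x ∈ orb C c, ∃ y ∈ orb C b, y ∈ cpt C x := by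
        intro x hx
        obtain ⟨s, hs, rfl⟩ := mem_orb.1 hx
        refine ⟨s b, mem_orb.2 ⟨s, hs, rfl⟩, ?_⟩
        rw [CEO.cpt_perm hs, hcpt]
        exact self_cpt C b
      choose! f hf1 hf2 using hex
      refine card_le_card_of_injOn f (fun x hx => hf1 x hx) ?_
      intro x hx y hy hxy
      have h1 := hf2 x hx
      have h2 := hf2 y hy
      have hxy' : f x = f y := hxy
      rw [hxy'] at h1
      have h3 : y ∈ cpt C x := by
        rw [CEO.mem_cpt] at h1 h2 ⊢
        exact h1.trans h2.symm
      obtain ⟨s, hs, rfl⟩ := mem_orb.1 hx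
      obtain ⟨r, hr, rfl⟩ := mem_orb.1 hy
      have e : s (s⁻¹ (r c)) = r c := s.apply_symm_apply _
      have h4 : (s⁻¹ * r) c ∈ cpt C c := by
        rw [Equiv.Perm.mul_apply, ← CEO.cpt_perm hs, e]
        exact h3
      have h5 := huniq (s⁻¹ * r) (mul_aut (inv_aut hs) hr) h4
      rw [Equiv.Perm.mul_apply] at h5
      rw [← e, h5]

/-- The branches at the images of a vertex are disjoint. -/
theorem orb_mul (C : SimpleGraph α) (b : α) (hC : Central0 C (orb C b) (Td C)) :
    (orb C b).card * (Td C b).card ≤ Fintype.card α := by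
  have h1 : ((orb C b).biUnion (Td C)).card = (orb C b).card * (Td C b).card := by
    rw [card_biUnion fun x hx y hy hne => hC.disj x hx y hy hne]
    rw [sum_congr rfl (orb_card C b), sum_const, smul_eq_mul]
  rw [← h1]
  exact card_le_univ _

/-- **The cut vertex theorem.** -/
theorem cut_general (C : SimpleGraph α) (hA : ∀ σ, IsClassAut C σ → IsAut C σ) (b : α)
    (hb : 4 * (orb C b).card < (Td C b).card ∨ 4 * Fintype.card α < (Td C b).card ^ 2) :
    TRC.AllRec C := by
  have hsub : (Td C b).card ≤ (cpt C b).card :=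
    card_le_card fun v hv => (CEO.mem_Td.1 hv).1
  have hcv : (cpt C b).card ≤ Fintype.card α := card_le_univ _
  have hsq : ∀ c, Central0 C (orb C c) (Td C) → 4 * Fintype.card α < (Td C c).card ^ 2 →
      4 * (orb C c).card < (Td C c).card := by
    intro c hC h
    by_contra hcon
    have h1 := orb_mul C c hC
    have h2 : (Td C c).card ^ 2 ≤ 4 * ((orb C c).card * (Td C c).card) := by
      rw [pow_two, ← mul_assoc]
      exact Nat.mul_le_mul_right _ (not_lt.1 hcon)
    omega
  rcases dich C b with ⟨hC, hle⟩ | ⟨c, hC, hTd, hn, hcv'⟩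
  · have hbig : 4 * (orb C b).card < (Td C b).card := by
      rcases hb with h | h
      · exact h
      · exact hsq b hC h
    have hn1 : 0 < (orb C b).card := card_pos.2 ⟨b, self_orb C b⟩
    refine core C hA b hC hbig (Or.inl ?_)
    rw [card_compl]
    omega
  · have hbig : 4 * (orb C c).card < (Td C c).card := by
      rcases hb with h | h
      · rw [hTd]
        omega
      · refine hsq c hC (h.trans_le ?_)
        rw [hTd]
        exact Nat.pow_le_pow_left hsub 2
    intro t t' hdeck
    by_contra hne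
    obtain ⟨⟨m, hm⟩, h0⟩ := four_dvd hdeck hne
    apply hne
    have hn1 : 0 < (orb C c).card := card_pos.2 ⟨c, self_orb C c⟩
    refine core C hA c hC hbig ?_ t t' hdeck
    by_cases hR : 4 ≤ ((Td C c)ᶜ).card
    · exact Or.inl hR
    · right
      intro x hx
      by_cases hxb : x ∈ cpt C b
      · have := hcv' x hxb hx
        omega
      · have h1 : blk C c x ⊆ (Td C c)ᶜ := by
          intro y hy
          rw [mem_compl, hTd]
          intro hyb
          apply hxb
          rw [CEO.mem_cpt] at hyb ⊢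
          rw [CEO.mem_blk'] at hy
          exact hyb.trans (hy.mono (SUB.del_le C c)).symm
        have h2 := card_le_card h1
        rw [hTd] at hbig
        omega

end

end Pool.Agent.TRD
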