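import Pool.Agent.TRD.St

/-!
# TRD, module BIG (backup, helper49): two large branches, or a central vertex
-/

set_option autoImplicit false

namespace Pool.Agent.TRD

open Finset Pool.Agent.Lib_helper61.SwitchBasic Pool.Agent.TRC

namespace BIG49

variable {α : Type} [Fintype α]

theorem mem_cpt {C : SimpleGraph α} {c v : α} : v ∈ cpt C c ↔ C.Reachable c v := by
  simp [cpt]

theorem cpt_eq {C : SimpleGraph α} {c v : α} (h : v ∈ cpt C c) : cpt C v = cpt C c := by
  rw [mem_cpt] at h
  ext w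
  rw [mem_cpt, mem_cpt]
  exact ⟨fun g => h.trans g, fun g => h.symm.trans g⟩

theorem self_cpt {C : SimpleGraph α} {c : α} : c ∈ cpt C c := by
  rw [mem_cpt]

theorem mem_Kd {C : SimpleGraph α} {b : α} :
    b ∈ Kd C ↔ Fintype.card α ≤ 2 * (cpt C b).card ∧ Cen C b := by
  simp [Kd]

theorem mem_Td {C : SimpleGraph α} {c v : α} :
    v ∈ Td C c ↔ v ∈ cpt C c ∧ (v = c ∨ 2 * (blk C c v).card < (cpt C c).card) := by
  simp [Td]

theorem blk_cpt {C : SimpleGraph α} {c x : α} : blk C c x ⊆ cpt C x := by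
  intro y hy
  rw [mem_cpt]
  have h1 : (del C c).Reachable x y := by
    simpa [blk] using hy
  have h2 : del C c ≤ C := by
    intro u v h
    exact h.1
  exact h1.mono h2

theorem disj_cpt [DecidableEq α] {C : SimpleGraph α} {o o' : α} (h : o' ∉ cpt C o) :
    Disjoint (cpt C o) (cpt C o') := by
  rw [Finset.disjoint_left]
  intro v hv hv'
  apply h
  rw [mem_cpt] at hv hv' ⊢
  exact hv.trans hv'.symm

/-- If at most one of the branches has more than `M` vertices, the component is small. -/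
theorem count [DecidableEq α] {C : SimpleGraph α} {o : α} {X : Finset α} {M : ℕ}
    (hne : (cpt C o).Nonempty)
    (h1 : ∀ b ∈ X, 2 * (Td C b).card ≤ (cpt C o).card)
    (h2 : ∀ v ∈ cpt C o, ∃ b ∈ X, v ∈ Td C b)
    (h3 : ∀ b₁ ∈ X, ∀ b₂ ∈ X, b₁ ≠ b₂ → M < (Td C b₁).card → ¬ M < (Td C b₂).card) :
    2 ≤ X.card ∧ (cpt C o).card ≤ 2 * ((X.card - 1) * M) := by
  have h4 : (cpt C o).card ≤ ∑ b ∈ X, (Td C b).card := by
    refine (Finset.card_le_card ?_).trans (Finset.card_biUnion_le (s := X) (t := Td C))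
    intro v hv
    rw [mem_biUnion]
    exact h2 v hv
  obtain ⟨v₀, hv₀⟩ := hne
  obtain ⟨b₀, hb₀, -⟩ := h2 v₀ hv₀
  obtain ⟨b, hb, hmax⟩ := Finset.exists_max_image X (fun b => (Td C b).card) ⟨b₀, hb₀⟩
  have h5 : ∑ b' ∈ X.erase b, (Td C b').card ≤ (X.erase b).card * M := by
    rw [← smul_eq_mul]
    refine Finset.sum_le_card_nsmul _ _ _ fun b' hb' => ?_
    rw [mem_erase] at hb'
    by_contra hlt
    push Not at hlt
    exact h3 b' hb'.2 b hb hb'.1 hlt (hlt.trans_le (hmax b' hb'.2))
  have h6 : ∑ b' ∈ X, (Td C b').card = (Td C b).card + ∑ b' ∈ X.erase b, (Td C b').card :=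
    (Finset.add_sum_erase X (fun b' => (Td C b').card) hb).symm
  rw [card_erase_of_mem hb] at h5
  have h7 := h1 b hb
  have h8 : 0 < (cpt C o).card := card_pos.2 ⟨v₀, hv₀⟩
  have h9 : (cpt C o).card ≤ 2 * ((X.card - 1) * M) := by omega
  refine ⟨?_, h9⟩
  by_contra h10
  have h11 : X.card - 1 = 0 := by omega
  rw [h11, Nat.zero_mul] at h9
  omega

/-- the square bound -/
theorem sq [DecidableEq α] {C : SimpleGraph α} {X : Finset α} (hp : 132 ≤ Fintype.card α)
    (hX : ∀ X : Finset α, 3 ≤ X.card → (∀ x ∈ X, (C.induce {v | v ∈ X ∧ v ≠ x}).Connected) →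
      32 * X.card ^ 2 < Fintype.card α) (h2 : X.card ≤ 2 ∨
      ∀ x ∈ X, (C.induce {v | v ∈ X ∧ v ≠ x}).Connected) : 32 * X.card ^ 2 < Fintype.card α := by
  by_cases h3 : 3 ≤ X.card
  · exact hX X h3 (h2.resolve_left (by omega))
  · have h4 : X.card ^ 2 ≤ 2 ^ 2 := Nat.pow_le_pow_left (by omega) 2
    omega

end BIG49

open BIG49 in
theorem t_BIG49 : S_SUB → S_BIG := by
  classical
  intro hS α _ _ C h132 h4 hX ⟨o, ho⟩
  -- the centres of a component
  set Z : α → Finset α := fun o => (cpt C o).filter fun b => Cen C b with hZ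
  have memZ : ∀ o b, b ∈ Z o ↔ b ∈ cpt C o ∧ Cen C b := by
    intro o b
    rw [hZ]
    simp only [mem_filter]
  -- one component
  have key : ∀ o, (∃ c, Z o = {c} ∧ Td C c = cpt C o ∧ ∀ v ∈ cpt C o, v ≠ c →
        2 * (blk C c v).card < (cpt C o).card) ∨
      (32 * (Z o).card ^ 2 < Fintype.card α ∧ 2 ≤ (Z o).card ∧
        (∀ b ∈ Z o, 2 * (Td C b).card ≤ (cpt C o).card) ∧
        ∀ M, (∀ b₁ ∈ Z o, ∀ b₂ ∈ Z o, b₁ ≠ b₂ → M < (Td C b₁).card → ¬ M < (Td C b₂).card) →
          (cpt C o).card ≤ 2 * (((Z o).card - 1) * M)) := by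
    intro o
    rcases hS α C o with ⟨c, hc, hcen, hv⟩ | ⟨i1, i2, i3, i4⟩
    · left
      have e := cpt_eq hc
      have e2 : Td C c = cpt C o := by
        ext v
        rw [mem_Td, e]
        constructor
        · exact fun h => h.1
        · intro h
          refine ⟨h, ?_⟩
          by_cases h1 : v = c
          · exact Or.inl h1
          · exact Or.inr (hv v h h1)
      refine ⟨c, ?_, e2, hv⟩
      ext b
      rw [memZ, mem_singleton]
      constructor
      · rintro ⟨h1, h2⟩
        by_contra h3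
        exact h2 c (Ne.symm h3) (by rw [e2]; exact h1)
      · rintro rfl
        exact ⟨hc, hcen⟩
    · right
      have j1 : ∀ b ∈ Z o, 2 * (Td C b).card ≤ (cpt C o).card := fun b hb =>
        i1 b ((memZ o b).1 hb).1
      have j2 : ∀ v ∈ cpt C o, ∃ b ∈ Z o, v ∈ Td C b := by
        intro v hv
        obtain ⟨b, hb, hb1, hb2⟩ := i2 v hv
        exact ⟨b, (memZ o b).2 ⟨hb, hb1⟩, hb2⟩
      have jne : (cpt C o).Nonempty := ⟨o, self_cpt⟩
      have j3 : 2 ≤ (Z o).card := by
        refine (count (M := Fintype.card α) jne j1 j2 ?_).1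
        intro b₁ _ b₂ _ _ _ h
        exact absurd (Finset.card_le_univ (Td C b₂)) (not_le.2 h)
      refine ⟨?_, j3, j1, fun M hM => (count jne j1 j2 hM).2⟩
      refine sq h132 hX ?_
      by_cases h3 : 3 ≤ (Z o).card
      · exact Or.inr (i4 (Z o) (memZ o) h3)
      · exact Or.inl (by omega)
  by_contra hcon
  rw [not_or] at hcon
  obtain ⟨hc1, hc2⟩ := hcon
  have hc1' : ∀ b₁ ∈ Kd C, ∀ b₂ ∈ Kd C, b₁ ≠ b₂ → 4 * (Kd C).card < (Td C b₁).card →
      ¬ 4 * (Kd C).card < (Td C b₂).card := fun b₁ h1 b₂ h2 h3 h4 h5 =>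
    hc1 ⟨b₁, h1, b₂, h2, h3, h4, h5⟩
  by_cases hAB : ∀ v, Fintype.card α ≤ 2 * (cpt C v).card → v ∈ cpt C o
  · -- case A
    have hK : Kd C = Z o := by
      ext b
      rw [mem_Kd, memZ]
      constructor
      · rintro ⟨h1, h2⟩
        exact ⟨hAB b h1, h2⟩
      · rintro ⟨h1, h2⟩
        rw [cpt_eq h1]
        exact ⟨ho, h2⟩
    rcases key o with ⟨c, hc, -, hv⟩ | ⟨k1, k2, -, k4⟩
    · refine hc2 ⟨c, by rw [hK, hc], fun x hx => ?_⟩
      by_cases hxo : x ∈ cpt C o
      · exact (hv x hxo hx).trans_le (Finset.card_le_univ _)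
      · have h1 : ¬ Fintype.card α ≤ 2 * (cpt C x).card := fun h => hxo (hAB x h)
        have h2 := Finset.card_le_card (blk_cpt (C := C) (c := c) (x := x))
        omega
    · rw [← hK] at k1 k2 k4
      have h1 := k4 _ hc1'
      obtain ⟨m, hm⟩ : ∃ m, (Kd C).card = m + 1 := ⟨(Kd C).card - 1, by omega⟩
      rw [hm] at h1 k1
      have h2 : m + 1 - 1 = m := by omega
      rw [h2] at h1
      nlinarith
  · -- case B
    push Not at hAB
    obtain ⟨o', ho', hoo⟩ := hAB
    have hd := disj_cpt hoo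
    have hsum : (cpt C o).card + (cpt C o').card ≤ Fintype.card α := by
      rw [← card_union_of_disjoint hd]
      exact Finset.card_le_univ _
    have hall : ∀ v, v ∈ cpt C o ∨ v ∈ cpt C o' := by
      intro v
      by_contra h
      push Not at h
      have h1 : (insert v (cpt C o ∪ cpt C o')).card ≤ Fintype.card α := Finset.card_le_univ _
      rw [card_insert_of_notMem (by rw [mem_union]; tauto), card_union_of_disjoint hd] at h1
      omega
    have hK : Kd C = Z o ∪ Z o' := by
      ext b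
      rw [mem_union, mem_Kd, memZ, memZ]
      constructor
      · rintro ⟨-, h2⟩
        rcases hall b with h | h
        · exact Or.inl ⟨h, h2⟩
        · exact Or.inr ⟨h, h2⟩
      · rintro (⟨h1, h2⟩ | ⟨h1, h2⟩)
        · rw [cpt_eq h1]
          exact ⟨ho, h2⟩
        · rw [cpt_eq h1]
          exact ⟨ho', h2⟩
    have hdZ : Disjoint (Z o) (Z o') := by
      refine Finset.disjoint_of_subset_left (filter_subset _ _)
        (Finset.disjoint_of_subset_right (filter_subset _ _) hd)
    have hm : (Kd C).card = (Z o).card + (Z o').card := by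
      rw [hK, card_union_of_disjoint hdZ]
    -- a component with the second alternative
    have hone : ∀ q q', Fintype.card α ≤ 2 * (cpt C q).card → 2 * (cpt C q).card ≤ Fintype.card α →
        Z q ⊆ Kd C → (Kd C).card = (Z q).card + (Z q').card →
        (∀ M, (∀ b₁ ∈ Z q, ∀ b₂ ∈ Z q, b₁ ≠ b₂ → M < (Td C b₁).card → ¬ M < (Td C b₂).card) →
          (cpt C q).card ≤ 2 * (((Z q).card - 1) * M)) → 2 ≤ (Z q).card →
        32 * (Z q).card ^ 2 < Fintype.card α → 32 * (Z q').card ^ 2 < Fintype.card α → False := by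
      intro q q' hq hq2 hsub hcard hM h2 hs hs'
      have h1 := hM _ fun b₁ h1 b₂ h2 => hc1' b₁ (hsub h1) b₂ (hsub h2)
      obtain ⟨m, hm⟩ : ∃ m, (Z q).card = m + 1 := ⟨(Z q).card - 1, by omega⟩
      rw [hcard, hm] at h1
      rw [hm] at hs
      have h3 : m + 1 - 1 = m := by omega
      rw [h3] at h1
      nlinarith [sq_nonneg (((m : ℤ) + 1) - ((Z q').card : ℤ))]
    have hsubo : Z o ⊆ Kd C := by rw [hK]; exact subset_union_left
    have hsubo' : Z o' ⊆ Kd C := by rw [hK]; exact subset_union_right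
    rcases key o with ⟨c, hc, hT, -⟩ | ⟨k1, k2, -, k4⟩
    · rcases key o' with ⟨c', hc', hT', -⟩ | ⟨l1, l2, -, l4⟩
      · rw [hc, hc', card_singleton, card_singleton] at hm
        have hcK : c ∈ Kd C := hsubo (by rw [hc]; exact mem_singleton_self c)
        have hcK' : c' ∈ Kd C := hsubo' (by rw [hc']; exact mem_singleton_self c')
        have hcc : c ≠ c' := by
          rintro rfl
          exact (Finset.disjoint_left.1 hdZ) (by rw [hc]; exact mem_singleton_self c)
            (by rw [hc']; exact mem_singleton_self c)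
        refine hc1' c hcK c' hcK' hcc ?_ ?_
        · rw [hm, hT]
          omega
        · rw [hm, hT']
          omega
      · refine hone o' o ho' (by omega) hsubo' (by omega) l4 l2 l1 ?_
        rw [hc, card_singleton]
        omega
    · rcases key o' with ⟨c', hc', hT', -⟩ | ⟨l1, l2, -, l4⟩
      · refine hone o o' ho (by omega) hsubo hm k4 k2 k1 ?_
        rw [hc', card_singleton]
        omega
      · exact hone o o' ho (by omega) hsubo hm k4 k2 k1 l1

end Pool.Agent.TRD

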