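import Pool.Agent.TRD.Fixed
import Pool.Agent.TRB.MCE1
import Pool.Agent.TRB.MCE2
import Pool.Agent.TRB.MCE3
import Pool.Agent.TRC.MFIX

/-!
# TRD: the branches at the images of a vertex of a connected graph (helper94)
-/

set_option autoImplicit false

namespace Pool.Agent.TRD

open Finset Pool.Agent.Lib_helper61.SwitchBasic Pool.Agent.Lib_helper61.SwMain Pool.Agent.TRC
open Pool.Agent.TRB Pool.Agent.TRB.CE3

open Classical in
/-- The images of `b` under the automorphisms of `C`. -/
noncomputable def orb {α : Type} [Fintype α] (C : SimpleGraph α) (b : α) : Finset α :=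
  univ.filter fun x => ∃ s, IsAut C s ∧ s b = x

theorem mem_orb {α : Type} [Fintype α] {C : SimpleGraph α} {b x : α} :
    x ∈ orb C b ↔ ∃ s, IsAut C s ∧ s b = x := by
  simp [orb]

theorem one_aut {α : Type} (C : SimpleGraph α) : IsAut C (1 : Equiv.Perm α) := fun _ _ => Iff.rfl

theorem self_orb {α : Type} [Fintype α] (C : SimpleGraph α) (b : α) : b ∈ orb C b :=
  mem_orb.2 ⟨1, one_aut C, rfl⟩

theorem orb_perm {α : Type} [Fintype α] {C : SimpleGraph α} {b : α} {s : Equiv.Perm α}
    (hs : IsAut C s) (x : α) : s x ∈ orb C b ↔ x ∈ orb C b := by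
  classical
  rw [mem_orb, mem_orb]
  constructor
  · rintro ⟨r, hr, e⟩
    refine ⟨s⁻¹ * r, mem_AA.1 (mul_AA (inv_AA (mem_AA.2 hs)) (mem_AA.2 hr)), ?_⟩
    rw [Equiv.Perm.mul_apply, e]
    exact s.symm_apply_apply x
  · rintro ⟨r, hr, e⟩
    refine ⟨s * r, mem_AA.1 (mul_AA (mem_AA.2 hs) (mem_AA.2 hr)), ?_⟩
    rw [Equiv.Perm.mul_apply, e]

theorem card_Tc {α : Type} [Fintype α] [DecidableEq α] (C : SimpleGraph α) (b : α)
    {s : Equiv.Perm α} (hs : IsAut C s) : (Tc C (s b)).card = (Tc C b).card := by
  symm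
  apply Finset.card_bij (fun y _ => s y)
  · intro y hy
    exact (Tc_perm C b y s hs).2 hy
  · intro a _ c _ h
    exact s.injective h
  · intro y hy
    refine ⟨s⁻¹ y, ?_, s.apply_symm_apply y⟩
    rw [← Tc_perm C b (s⁻¹ y) s hs, show s (s⁻¹ y) = y from s.apply_symm_apply y]
    exact hy

theorem loc_Tc {α : Type} [Fintype α] [DecidableEq α] (C : SimpleGraph α) (hN : NoC C) (b : α)
    {s : Equiv.Perm α} (hs : IsAut C s) (hsb : s b = b) :
    ∃ s', IsAut C s' ∧ (∀ v ∈ Tc C b, s' v = s v) ∧ ∀ v, v ∉ Tc C b → s' v = v := by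
  obtain ⟨-, -, h3⟩ := t_CE1 α C hN
  have hT : ∀ v, s v ∈ Tc C b ↔ v ∈ Tc C b := by
    intro v
    have := Tc_perm C b v s hs
    rwa [hsb] at this
  have hT' : ∀ v, s⁻¹ v ∈ Tc C b ↔ v ∈ Tc C b := by
    intro v
    have e : s (s⁻¹ v) = v := s.apply_symm_apply v
    rw [← hT (s⁻¹ v), e]
  have hsne : ∀ v, v ≠ b → s v ≠ b := fun v hv e => hv (s.injective (e.trans hsb.symm))
  let s' : Equiv.Perm α :=
    { toFun := fun v => if v ∈ Tc C b then s v else v
      invFun := fun v => if v ∈ Tc C b then s⁻¹ v else v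
      left_inv := by
        intro v
        by_cases hv : v ∈ Tc C b
        · have h' := (hT v).2 hv
          simp [hv, h']
        · simp [hv]
      right_inv := by
        intro v
        by_cases hv : v ∈ Tc C b
        · have h' := (hT' v).2 hv
          simp only [hv, if_true, h']
          simp
        · simp [hv] }
  have e1 : ∀ v ∈ Tc C b, s' v = s v := fun v hv => if_pos hv
  have e2 : ∀ v, v ∉ Tc C b → s' v = v := fun v hv => if_neg hv
  refine ⟨s', ?_, e1, e2⟩
  have key : ∀ u v, u ∈ Tc C b → v ∉ Tc C b → (C.Adj (s u) v ↔ C.Adj u v) := by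
    intro u v hu hv
    by_cases hub : u = b
    · rw [hub, hsb]
    · constructor
      · intro h
        exact absurd (h3 b (s u) v ((hT u).2 hu) (hsne u hub) h) hv
      · intro h
        exact absurd (h3 b u v hu hub h) hv
  intro u v
  by_cases hu : u ∈ Tc C b
  · by_cases hv : v ∈ Tc C b
    · rw [e1 u hu, e1 v hv]
      exact hs u v
    · rw [e1 u hu, e2 v hv]
      exact key u v hu hv
  · by_cases hv : v ∈ Tc C b
    · rw [e2 u hu, e1 v hv, C.adj_comm, key v u hv hu, C.adj_comm]
    · rw [e2 u hu, e2 v hv]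

theorem disj_Tc {α : Type} [Fintype α] [DecidableEq α] (C : SimpleGraph α) (hC : C.Connected)
    (hN : NoC C) {b b' : α} (n1 : b ∉ Tc C b') (n2 : b' ∉ Tc C b) :
    Disjoint (Tc C b) (Tc C b') := by
  obtain ⟨-, -, h3⟩ := t_CE1 α C hN
  rw [disjoint_left]
  intro v hv hv'
  have hvb' : v ≠ b' := fun e => n2 (e ▸ hv)
  obtain ⟨p⟩ := hC.preconnected v b
  have hr := CE3.walk C b b' (h3 b) n2 p rfl hv
  apply n1
  rw [mem_Tc] at hv' ⊢
  right
  rcases hv' with h | h
  · exact absurd h hvb'
  · rwa [← blk_eq.2 hr]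

theorem not_mem_Tc {α : Type} [Fintype α] [DecidableEq α] (C : SimpleGraph α) (hC : C.Connected)
    (hN : NoC C) {b b' : α} (hne : b ≠ b') (hcard : (Tc C b').card = (Tc C b).card) :
    b ∉ Tc C b' := by
  intro h
  obtain ⟨h1, h2⟩ := t_CE2 t_CE1 α C hC hN b b' hne h
  have h3 : Tc C b = Tc C b' := Finset.eq_of_subset_of_card_le h1 hcard.le
  apply h2
  rw [h3]
  exact (mem_Tc C b' b').2 (Or.inl rfl)

/-- The images of a vertex form a centre. -/
theorem central_orb {α : Type} [Fintype α] [DecidableEq α] (C : SimpleGraph α)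
    (hC : C.Connected) (hN : NoC C) (b : α) : Central0 C (orb C b) (Tc C) := by
  have hcard : ∀ x ∈ orb C b, (Tc C x).card = (Tc C b).card := by
    intro x hx
    obtain ⟨s, hs, rfl⟩ := mem_orb.1 hx
    exact card_Tc C b hs
  refine ⟨fun b _ => (mem_Tc C b b).2 (Or.inl rfl), ?_, fun s hs x => orb_perm hs x, ?_,
    fun s hs b _ hsb => loc_Tc C hN b hs hsb⟩
  · intro c hc c' hc' hne
    have e : (Tc C c').card = (Tc C c).card := (hcard c' hc').trans (hcard c hc).symm
    exact disj_Tc C hC hN (not_mem_Tc C hC hN hne e) (not_mem_Tc C hC hN hne.symm e.symm)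
  · intro s hs c _
    ext y
    have e : s (s⁻¹ y) = y := s.apply_symm_apply y
    rw [mem_im, ← Tc_perm C c (s⁻¹ y) s hs, e]

/-- **The cut vertex theorem.** -/
theorem cut_vertex (hTW0 : S_TW0) {α : Type} [Fintype α] [DecidableEq α] (C : SimpleGraph α)
    (hC : C.Connected) (hA : ∀ σ, IsClassAut C σ → IsAut C σ) (b : α) (h2 : ∃ x, x ≠ b)
    (hb : ∀ x, x ≠ b → (blk C b x).card + 4 * (orb C b).card < Fintype.card α) : TRC.AllRec C := by
  have hn1 : 0 < (orb C b).card := card_pos.2 ⟨b, self_orb C b⟩
  have hp6 : 6 ≤ Fintype.card α := by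
    obtain ⟨x, hx⟩ := h2
    have h3 := hb x hx
    have h4 : 0 < (blk C b x).card :=
      card_pos.2 ⟨x, (mem_bk C b x x).2 (SimpleGraph.Reachable.refl x)⟩
    omega
  by_cases hN : NoC C
  · obtain ⟨x, hx, hxb⟩ := hN b
    have hT : Fintype.card α ≤ (Tc C b).card + (blk C b x).card := by
      have h3 : (univ : Finset α) ⊆ Tc C b ∪ blk C b x := by
        intro v _
        rw [mem_union, mem_Tc]
        by_contra hcon
        push Not at hcon
        obtain ⟨⟨hvb, hv⟩, hvx⟩ := hcon
        have hdis : Disjoint (blk C b v) (blk C b x) := by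
          rw [disjoint_left]
          intro w hw hw'
          rw [mem_bk] at hw hw'
          apply hvx
          rw [mem_bk]
          exact hw'.trans hw.symm
        have hbn : b ∉ blk C b v ∪ blk C b x := by
          intro hb'
          have : ∀ y, y ≠ b → b ∉ blk C b y := by
            intro y hy hyb
            rw [mem_bk] at hyb
            have h5 : blk C b y = blk C b b := blk_eq.2 hyb
            rw [blk_self] at h5
            have h6 : y ∈ blk C b y := (mem_bk C b y y).2 (SimpleGraph.Reachable.refl y)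
            rw [h5, mem_singleton] at h6
            exact hy h6
          rcases mem_union.1 hb' with h | h
          · exact this v hvb h
          · exact this x hx h
        have h7 : (insert b (blk C b v ∪ blk C b x)).card ≤ Fintype.card α := card_le_univ _
        rw [card_insert_of_notMem hbn, card_union_of_disjoint hdis] at h7
        omega
      have h8 := card_le_card h3
      rw [card_univ] at h8
      exact h8.trans (card_union_le _ _)
    have hbx := hb x hx
    have hbig : 4 * (orb C b).card < (Tc C b).card := by omega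
    by_cases hfix : ∀ s, IsAut C s → s b = b
    · -- `b` is fixed
      have hbT : b ∈ Tc C b := (mem_Tc C b b).2 (Or.inl rfl)
      have hT' : ∀ s, IsAut C s → ∀ v, s v ∈ Tc C b ↔ v ∈ Tc C b := by
        intro s hs v
        have := Tc_perm C b v s hs
        rwa [hfix s hs] at this
      have hXc : ((Tc C b).erase b).card + 1 = (Tc C b).card := card_erase_add_one hbT
      obtain ⟨h9, -, -⟩ := t_CE1 α C hN
      have hle := h9 b
      intro t t' hdeck
      by_contra hne
      obtain ⟨⟨m, hm⟩, h0⟩ := four_dvd hdeck hne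
      apply hne
      refine fixed_vertex C hA b hfix ((Tc C b).erase b) (Tc C b)ᶜ (notMem_erase b _)
        (fun h => (mem_compl.1 h) hbT) ?_ ?_ ?_ (by omega) ?_ ?_ t t' hdeck
      · rw [disjoint_left]
        intro v hv hv'
        exact (mem_compl.1 hv') (mem_of_mem_erase hv)
      · intro s hs v
        rw [mem_erase, mem_erase, hT' s hs v]
        have : s v ≠ b ↔ v ≠ b := by
          constructor
          · intro h e
            exact h (by rw [e, hfix s hs])
          · intro h e
            exact h (s.injective (by rw [e, hfix s hs]))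
        rw [this]
      · intro s hs v
        rw [mem_compl, mem_compl, hT' s hs v]
      · rw [card_compl]
        omega
      · intro s hs
        obtain ⟨s', hs', hin, hout⟩ := loc_Tc C hN b hs (hfix s hs)
        refine ⟨s', hs', fun v hv => hin v (mem_of_mem_erase hv), ?_⟩
        intro v hv
        by_cases hvb : v = b
        · rw [hvb, hin b hbT, hfix s hs]
        · exact hout v fun h => hv (mem_erase.2 ⟨hvb, h⟩)
    · push Not at hfix
      obtain ⟨s, hs, hsb⟩ := hfix
      have hsb' : s b ∈ orb C b := mem_orb.2 ⟨s, hs, rfl⟩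
      refine hTW0 α C (orb C b) (Tc C) (central_orb C hC hN b) hA b (self_orb C b) (s b) hsb'
        (Ne.symm hsb) hbig ?_
      rw [card_Tc C b hs]
      exact hbig
  · unfold NoC at hN
    push Not at hN
    obtain ⟨c, hc⟩ := hN
    have h4 : Fintype.card α ≠ 4 := by omega
    exact central_vertex h4 C c hc fun σ hσ => t_FIX α C c hC hc σ (hA σ hσ)

end Pool.Agent.TRD
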