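import Pool.Agent.TRB.Few
import Pool.Agent.RGP15.Cubic4

/-!
# TRD: graphs of maximum degree at most three, connected or not (helper15, helper85, helper94)
-/

set_option autoImplicit false

namespace Pool.Agent.TRD

open Finset Pool.Agent.Lib_helper61.SwitchBasic Pool.Agent.TRC

/-- **Graphs of maximum degree at most three.** -/
theorem subcubic {α : Type} [Fintype α] [DecidableEq α] (C : SimpleGraph α)
    (hp : 120000000 ≤ Fintype.card α) (hd : ∀ v, (C.neighborSet v).ncard ≤ 3) :
    TRC.AllRec C := by
  classical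
  have hA : ∀ σ, IsClassAut C σ → IsAut C σ := deg_aut C fun v => by
    have := hd v
    omega
  refine TRB.FEW.blocks_few C hA (by omega) fun X h3 hX => ?_
  rcases Nat.lt_or_ge X.card 2700 with h | h
  · left
    have h2 : X.card ^ 2 ≤ 2699 ^ 2 := Nat.pow_le_pow_left (by omega) 2
    omega
  · right
    have h9 := Pool.Agent.RGP15.Cub.subcubic_aut C X (fun v _ S _ hS => by
      have h10 : (S : Set α) ⊆ C.neighborSet v := fun x hx => hS x hx
      have h11 := Set.ncard_le_ncard h10 (Set.toFinite _)
      rw [Set.ncard_coe_finset] at h11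
      exact h11.trans (hd v)) hX h
    by_contra hcon
    rw [not_lt] at hcon
    have h12 : (2 ^ (X.card - X.card / 2)) ^ 2 ≤
        (8 * Nat.card (C.induce {v | v ∈ X} ≃g C.induce {v | v ∈ X})) ^ 2 :=
      Nat.pow_le_pow_left hcon 2
    rw [← pow_mul] at h12
    have h13 : 2 ^ X.card ≤ 2 ^ ((X.card - X.card / 2) * 2) :=
      Nat.pow_le_pow_right (by norm_num) (by omega)
    have h14 : (8 * Nat.card (C.induce {v | v ∈ X} ≃g C.induce {v | v ∈ X})) ^ 2 =
        16 * (2 * Nat.card (C.induce {v | v ∈ X} ≃g C.induce {v | v ∈ X})) ^ 2 := by ring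
    omega

end Pool.Agent.TRD
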